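import Pool.Agent.H76E.J

set_option autoImplicit false
set_option linter.unusedSectionVars false

/-! Idempotent matrices over group rings of arbitrary groups: if for each `k` the row `k` or the column `k`
has at most two coefficients outside of the diagonal, all of them units, then the matrix is conjugate to a
diagonal matrix with entries `0` and `1`. Over integral group rings this applies to all idempotent matrices
of operator norm less than `√7`. -/

namespace Pool.Agent.Results.MP_1a2884_al.IdempotentsNearDiagonal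

open Matrix

section defs

variable {R : Type} [Ring R] {Γ : Type} [Group Γ] {κ : Type}

/-- at most `n` coefficients (in `R`) of the vector over `RΓ` are not zero, and these are units of `R` -/
def AtMostUnits (n : ℕ) (r : κ → MonoidAlgebra R Γ) : Prop :=
  ∃ s : Finset (κ × Γ), s.card ≤ n ∧
    ∀ j g, (r j).coeff g ≠ 0 → (j, g) ∈ s ∧ IsUnit ((r j).coeff g)

variable [DecidableEq κ]

/-- the diagonal matrix of the coefficients at `1` of the diagonal entries of `E` -/
noncomputable def diagPart (E : Matrix κ κ (MonoidAlgebra R Γ)) : Matrix κ κ (MonoidAlgebra R Γ) :=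
  Matrix.diagonal fun k => MonoidAlgebra.single 1 ((E k k).coeff 1)

/-- The coefficients at `1` of the diagonal entries are `0` or `1`, and for each `k`, the row `k` or the
column `k` of `E - diagPart E` has at most `n` coefficients which are not zero, and these are units. -/
def Short (n : ℕ) (E : Matrix κ κ (MonoidAlgebra R Γ)) : Prop :=
  ∀ k, ((E k k).coeff 1 = 0 ∨ (E k k).coeff 1 = 1) ∧
    (AtMostUnits n (fun j => (E - diagPart E) k j) ∨ AtMostUnits n (fun i => (E - diagPart E) i k))

/-- all diagonal entries of `E` have the coefficient `0` or `1` at `1`, and `E` is conjugate by an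
invertible matrix over `RΓ` to the diagonal matrix of these coefficients -/
def ConjToDiag [Fintype κ] (E : Matrix κ κ (MonoidAlgebra R Γ)) : Prop :=
  (∀ k, (E k k).coeff 1 = 0 ∨ (E k k).coeff 1 = 1) ∧
    ∃ U : (Matrix κ κ (MonoidAlgebra R Γ))ˣ,
      (↑U⁻¹ : Matrix κ κ (MonoidAlgebra R Γ)) * E * (U : Matrix κ κ (MonoidAlgebra R Γ))
        = diagPart E

/-- the (finitely generated projective) left module of the row vectors `x E` is free, with a basis indexed
by the `k` for which the coefficient of `E k k` at `1` is `1` -/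
def FreeImage [Fintype κ] (E : Matrix κ κ (MonoidAlgebra R Γ)) : Prop :=
  Nonempty (LinearMap.range (Matrix.vecMulLinear E) ≃ₗ[MonoidAlgebra R Γ]
    ({k : κ // (E k k).coeff 1 = 1} → MonoidAlgebra R Γ))

end defs

section ints

variable {Γ : Type} [Group Γ] {κ : Type}

/-- the squared norm in `ℓ²(Γ)` of an element of `ℤΓ`: the sum of the squares of its coefficients -/
def sqNorm (x : MonoidAlgebra ℤ Γ) : ℤ := ∑ g ∈ x.coeff.support, x.coeff g ^ 2

/-- the adjoint (conjugate transpose) of a matrix over `ℤΓ`, for the involution `g ↦ g⁻¹` -/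
noncomputable def adjoint (A : Matrix κ κ (MonoidAlgebra ℤ Γ)) : Matrix κ κ (MonoidAlgebra ℤ Γ) :=
  Matrix.of fun i j => MonoidAlgebra.mapDomain (fun g => g⁻¹) (A j i)

variable [Fintype κ]

/-- The operator `x ↦ x M` on `ℓ²(Γ)^κ` has norm at most `c`: this is the inequality of the norms for
all finitely supported real row vectors `x`. -/
def OpNormLE (M : Matrix κ κ (MonoidAlgebra ℤ Γ)) (c : ℝ) : Prop :=
  0 ≤ c ∧ ∀ x : κ → MonoidAlgebra ℝ Γ,
    ∑ j, ∑ g ∈ ((x ᵥ* M.map (MonoidAlgebra.mapRingHom Γ (Int.castRingHom ℝ))) j).coeff.support,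
      ((x ᵥ* M.map (MonoidAlgebra.mapRingHom Γ (Int.castRingHom ℝ))) j).coeff g ^ 2
      ≤ c ^ 2 * ∑ j, ∑ g ∈ (x j).coeff.support, (x j).coeff g ^ 2

end ints

section aux

open Pool.Agent.H76E TH57.Thr TH6.LF Pool.Agent.Y75.Th

variable {R : Type} [Ring R] {Γ : Type} [Group Γ] {κ : Type} [Fintype κ] [DecidableEq κ]

theorem diag_eq (E : Matrix κ κ (MonoidAlgebra R Γ)) (d : κ → Bool)
    (ht : ∀ k, (E k k).coeff 1 = if d k then 1 else 0) : diagPart E = dm d := by
  unfold diagPart dm
  congr 1
  funext k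
  rw [ht]
  unfold dl
  split_ifs
  · rfl
  · exact MonoidAlgebra.single_zero 1

theorem fin_of_Dg [Nontrivial R] (E : Matrix κ κ (MonoidAlgebra R Γ)) (d : κ → Bool)
    (ht : ∀ k, (E k k).coeff 1 = if d k then 1 else 0) (h : Dg E d) :
    ConjToDiag E ∧ FreeImage E := by
  constructor
  · refine ⟨fun k => ?_, ?_⟩
    · rw [ht]; split_ifs
      · right; rfl
      · left; rfl
    · obtain ⟨U, V, h1, h2, h3⟩ := h
      exact ⟨⟨U, V, h1, h2⟩, by rw [diag_eq E d ht]; exact h3⟩
  · obtain ⟨e⟩ := h.range
    have hk : ∀ k, d k = true ↔ (E k k).coeff 1 = 1 := by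
      intro k
      rw [ht]
      cases d k <;> simp
    exact ⟨e.trans (LinearEquiv.funCongrLeft (MonoidAlgebra R Γ) (MonoidAlgebra R Γ)
      (Equiv.subtypeEquivRight hk).symm)⟩

theorem partA (h2 : (2 : R) ≠ 0) (E : Matrix κ κ (MonoidAlgebra R Γ)) (hE : E * E = E)
    (h : Short 2 E) : ConjToDiag E ∧ FreeImage E := by
  classical
  have hR : Nontrivial R := ⟨⟨2, 0, h2⟩⟩
  obtain ⟨d, hd⟩ : ∃ d : κ → Bool, ∀ k, d k = decide ((E k k).coeff 1 = 1) := ⟨_, fun _ => rfl⟩
  have ht : ∀ k, (E k k).coeff 1 = if d k then 1 else 0 := by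
    intro k
    rw [hd]
    rcases (h k).1 with h1 | h1 <;> simp [h1]
  refine fin_of_Dg E d ht (main_GR h2 E hE d ht fun k => ?_)
  have hX : E - diagPart E = XX E d := by rw [diag_eq E d ht]; rfl
  have := (h k).2
  rw [hX] at this
  exact this

theorem partZ (E : Matrix κ κ (MonoidAlgebra ℤ Γ)) (hE : E * E = E)
    (h : ∀ i, ∑ j, sqNorm ((E - adjoint E) i j) ≤ 5) : ConjToDiag E ∧ FreeImage E := by
  obtain ⟨d, ht, hd⟩ := int_main E hE h
  exact fin_of_Dg E d ht hd

theorem partN (E : Matrix κ κ (MonoidAlgebra ℤ Γ)) (hE : E * E = E) (c : ℝ) (hc : c ^ 2 < 7)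
    (h : OpNormLE E c) : ConjToDiag E ∧ FreeImage E := by
  obtain ⟨d, ht, hd⟩ := norm_main E hE c h.1 hc h.2
  exact fin_of_Dg E d ht hd

theorem partH (E : Matrix κ κ (MonoidAlgebra ℤ Γ)) (hE : E * E = E) (c : ℝ) (hc : c ^ 2 < 6)
    (h : OpNormLE (E - adjoint E) c) : ConjToDiag E ∧ FreeImage E := by
  apply partZ E hE
  intro i
  have h1 : normSq (Pi.single i (1 : MonoidAlgebra ℝ Γ) ᵥ* toReal (E - adj E))
      ≤ c ^ 2 * normSq (Pi.single i (1 : MonoidAlgebra ℝ Γ) : κ → MonoidAlgebra ℝ Γ) := h.2 _
  rw [normSq_row, normSq_single, mul_one] at h1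
  have h3 : ((N (fun j => (E - adj E) i j) : ℤ) : ℝ) < ((6 : ℤ) : ℝ) := by
    push_cast
    linarith
  have h4 := Int.cast_lt.1 h3
  change N (fun j => (E - adj E) i j) ≤ 5
  omega

end aux

section examples

/-- the example over the field with three elements: `1 + g + h + g h` for the Klein four-group -/
noncomputable def exThree : MonoidAlgebra (ZMod 3) (Multiplicative (ZMod 2 × ZMod 2)) :=
  MonoidAlgebra.single (Multiplicative.ofAdd (0, 0)) 1 +
  MonoidAlgebra.single (Multiplicative.ofAdd (1, 0)) 1 +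
  MonoidAlgebra.single (Multiplicative.ofAdd (0, 1)) 1 +
  MonoidAlgebra.single (Multiplicative.ofAdd (1, 1)) 1

/-- the example over the field with two elements: `1 + g + g²` for the group of order three -/
noncomputable def exTwo : MonoidAlgebra (ZMod 2) (Multiplicative (ZMod 3)) :=
  MonoidAlgebra.single (Multiplicative.ofAdd 0) 1 +
  MonoidAlgebra.single (Multiplicative.ofAdd 1) 1 +
  MonoidAlgebra.single (Multiplicative.ofAdd 2) 1

theorem exThree_coeff (g : Multiplicative (ZMod 2 × ZMod 2)) : exThree.coeff g = 1 := by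
  unfold exThree
  simp only [MonoidAlgebra.coeff_add, Finsupp.add_apply, MonoidAlgebra.coeff_single,
    Finsupp.single_apply]
  revert g
  decide

theorem exTwo_coeff (g : Multiplicative (ZMod 3)) : exTwo.coeff g = 1 := by
  unfold exTwo
  simp only [MonoidAlgebra.coeff_add, Finsupp.add_apply, MonoidAlgebra.coeff_single,
    Finsupp.single_apply]
  revert g
  decide

theorem sum_coeff_mul {F : Type} [Field F] {G : Type} [Group G] [Fintype G] [DecidableEq G]
    (e : MonoidAlgebra F G) (he : ∀ g, e.coeff g = 1) (hc : (Fintype.card G : F) = 1) :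
    e * e = e := by
  apply Pool.Agent.H76E.ext1
  intro g
  rw [MonoidAlgebra.coeff_mul_apply_left, Finsupp.sum]
  have h1 : e.coeff.support = Finset.univ := by
    ext h
    simp [he]
  rw [h1]
  simp only [he, mul_one, Finset.sum_const, Finset.card_univ, nsmul_eq_mul, hc]

/-- a one by one matrix which is an idempotent different from `1`, with the coefficient `1` at `1` -/
theorem not_conj {F : Type} [Field F] {G : Type} [Group G] (e : MonoidAlgebra F G)
    (h1 : e.coeff 1 = 1) (hne : e ≠ 1) :
    ¬ ConjToDiag (Matrix.of fun _ _ : Unit => e) := by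
  rintro ⟨-, U, hU⟩
  have hd : diagPart (Matrix.of fun _ _ : Unit => e) = 1 := by
    unfold diagPart
    rw [← Matrix.diagonal_one]
    congr 1
    funext k
    change MonoidAlgebra.single 1 (e.coeff 1) = 1
    rw [h1]; rfl
  rw [hd] at hU
  have h2 : (Matrix.of fun _ _ : Unit => e) = (1 : Matrix Unit Unit (MonoidAlgebra F G)) := by
    calc (Matrix.of fun _ _ : Unit => e)
        = (U : Matrix Unit Unit (MonoidAlgebra F G)) * (↑U⁻¹ * (Matrix.of fun _ _ : Unit => e) * ↑U)
          * ↑U⁻¹ := by
          simp only [← mul_assoc, Units.mul_inv, one_mul]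
          rw [mul_assoc, Units.mul_inv, mul_one]
      _ = 1 := by rw [hU, mul_one, Units.mul_inv]
  apply hne
  have := congrFun (congrFun h2 ()) ()
  simpa using this

theorem short_ex {F : Type} [Field F] {G : Type} [Group G] [Fintype G] [DecidableEq G]
    (e : MonoidAlgebra F G) (he : ∀ g, e.coeff g = 1) (n : ℕ) (hn : Fintype.card G ≤ n + 1) :
    Short n (Matrix.of fun _ _ : Unit => e) := by
  intro k
  refine ⟨Or.inr (he 1), Or.inl ?_⟩
  refine ⟨(Finset.univ.erase 1).image fun g => ((), g), ?_, ?_⟩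
  · refine Finset.card_image_le.trans ?_
    rw [Finset.card_erase_of_mem (Finset.mem_univ _), Finset.card_univ]
    omega
  · intro j g hg
    have h1 : (Matrix.of (fun _ _ : Unit => e) - diagPart (Matrix.of fun _ _ : Unit => e)) k j
        = e - MonoidAlgebra.single 1 1 := by
      rw [Matrix.sub_apply]
      unfold diagPart
      rw [show j = k from rfl, Matrix.diagonal_apply_eq]
      change e - MonoidAlgebra.single 1 (e.coeff 1) = _
      rw [he]
    have h2 : (e - MonoidAlgebra.single 1 1).coeff g = if g = 1 then 0 else 1 := by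
      rw [MonoidAlgebra.coeff_sub, Finsupp.sub_apply, he, MonoidAlgebra.coeff_single,
        Finsupp.single_apply]
      by_cases h : g = 1
      · rw [if_pos h, if_pos h.symm, sub_self]
      · rw [if_neg h, if_neg (Ne.symm h), sub_zero]
    have h3 : ((Matrix.of (fun _ _ : Unit => e) - diagPart (Matrix.of fun _ _ : Unit => e)) k j).coeff g
        = if g = 1 then 0 else 1 := by rw [h1, h2]
    change ((Matrix.of (fun _ _ : Unit => e) - diagPart (Matrix.of fun _ _ : Unit => e)) k j).coeff g
      ≠ 0 at hg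
    change (j, g) ∈ _ ∧ IsUnit (((Matrix.of (fun _ _ : Unit => e)
      - diagPart (Matrix.of fun _ _ : Unit => e)) k j).coeff g)
    rw [h3] at hg ⊢
    by_cases h : g = 1
    · rw [if_pos h] at hg; exact absurd rfl hg
    · rw [if_neg h]
      exact ⟨Finset.mem_image.2 ⟨g, by simp [h], rfl⟩, isUnit_one⟩

end examples

theorem result :
    (∀ (R : Type) [Ring R] (Γ : Type) [Group Γ] (κ : Type) [Fintype κ] [DecidableEq κ]
      (E : Matrix κ κ (MonoidAlgebra R Γ)), (2 : R) ≠ 0 → E * E = E → Short 2 E →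
        ConjToDiag E ∧ FreeImage E) ∧
    (∀ (Γ : Type) [Group Γ] (κ : Type) [Fintype κ] [DecidableEq κ]
      (E : Matrix κ κ (MonoidAlgebra ℤ Γ)), E * E = E →
        (∀ i, ∑ j, sqNorm ((E - adjoint E) i j) ≤ 5) ∨
        (∃ c : ℝ, c ^ 2 < 6 ∧ OpNormLE (E - adjoint E) c) ∨ (∃ c : ℝ, c ^ 2 < 7 ∧ OpNormLE E c) →
        ConjToDiag E ∧ FreeImage E) ∧
    (∃ E : Matrix Unit Unit (MonoidAlgebra (ZMod 3) (Multiplicative (ZMod 2 × ZMod 2))),
      E * E = E ∧ Short 3 E ∧ ¬ ConjToDiag E) ∧
    (∃ E : Matrix Unit Unit (MonoidAlgebra (ZMod 2) (Multiplicative (ZMod 3))),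
      E * E = E ∧ Short 2 E ∧ ¬ ConjToDiag E) := by
  refine ⟨?_, ?_, ?_, ?_⟩
  · intro R _ Γ _ κ _ _ E h2 hE h
    exact partA h2 E hE h
  · rintro Γ _ κ _ _ E hE (h | ⟨c, hc, h⟩ | ⟨c, hc, h⟩)
    · exact partZ E hE h
    · exact partH E hE c hc h
    · exact partN E hE c hc h
  · have : Fact (Nat.Prime 3) := ⟨by norm_num⟩
    refine ⟨Matrix.of fun _ _ => exThree, ?_, ?_, ?_⟩
    · ext1 i j
      rw [Matrix.mul_apply]
      simp only [Matrix.of_apply, Finset.univ_unique, Finset.sum_const, Finset.card_singleton,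
        one_smul]
      exact sum_coeff_mul exThree exThree_coeff (by decide)
    · exact short_ex exThree exThree_coeff 3 (by decide)
    · apply not_conj exThree (exThree_coeff 1)
      intro h
      have h1 := exThree_coeff (Multiplicative.ofAdd (1, 0))
      rw [h, MonoidAlgebra.one_def, MonoidAlgebra.coeff_single,
        Finsupp.single_eq_of_ne (by decide)] at h1
      exact zero_ne_one h1
  · have : Fact (Nat.Prime 2) := ⟨by norm_num⟩
    refine ⟨Matrix.of fun _ _ => exTwo, ?_, ?_, ?_⟩
    · ext1 i j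
      rw [Matrix.mul_apply]
      simp only [Matrix.of_apply, Finset.univ_unique, Finset.sum_const, Finset.card_singleton,
        one_smul]
      exact sum_coeff_mul exTwo exTwo_coeff (by decide)
    · exact short_ex exTwo exTwo_coeff 2 (by decide)
    · apply not_conj exTwo (exTwo_coeff 1)
      intro h
      have h1 := exTwo_coeff (Multiplicative.ofAdd 1)
      rw [h, MonoidAlgebra.one_def, MonoidAlgebra.coeff_single,
        Finsupp.single_eq_of_ne (by decide)] at h1
      exact zero_ne_one h1

end Pool.Agent.Results.MP_1a2884_al.IdempotentsNearDiagonal
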