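import Pool.Agent.H61.LQ.ModR

set_option autoImplicit false

/-!
# Projective modules over group rings and the norms on `ℓ^p` of their presentations

Let `κ_p = ((3/2)^(p-1) + 3^(p-1))^(1/p)`, so `κ_2 = 3 / √2`, `κ_p → 3`. A module over `RG` (any
ring, any group) with a presentation matrix which is controlled by an integral matrix whose left
multiplication has norm less than `κ_p` on some `ℓ^p` and whose right multiplication has norm less
than `κ_q` on some `ℓ^q` is a sum of modules induced from virtually cyclic subgroups. For a field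
and a torsion-free group projective ones are free, over `ℤ` they are stably free. Conversely every
finitely presented module has a presentation which is good up to `ε` for all exponents at once.
The least `ℓ^p` pattern norm of the presentations of a finitely generated projective module is `0`
or exactly `κ_P`, where `P = max (p, p')`.
-/

namespace Pool.Agent.Results.MP_1a2884_al.PatternNormsAllExponents

open scoped Matrix
open TH57.Thr TH6.PF Pool.Agent.H61.LQ Pool.Agent.V1132.CN Pool.Agent.N510.LT

section defs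

variable {R : Type} [Ring R] {G : Type} [Group G]

/-- `P` is the cokernel of the right multiplication with `A` on row vectors. -/
def Presents {m n : ℕ} (A : Matrix (Fin m) (Fin n) (MonoidAlgebra R G))
    (P : Type) [AddCommGroup P] [Module (MonoidAlgebra R G) P] : Prop :=
  Nonempty (P ≃ₗ[MonoidAlgebra R G] Coker A)

/-- The support of `Q` contains that of `A`. -/
def Controls {m n : ℕ} (Q : Matrix (Fin m) (Fin n) (MonoidAlgebra ℤ G))
    (A : Matrix (Fin m) (Fin n) (MonoidAlgebra R G)) : Prop :=
  ∀ i j g, (A i j).coeff g ≠ 0 → (Q i j).coeff g ≠ 0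

/-- Each row and each column of `B` has at most three terms. -/
def ThreeTerms {m n : ℕ} (B : Matrix (Fin m) (Fin n) (MonoidAlgebra R G)) : Prop :=
  (∀ i, ∑ j, (B i j).coeff.support.card ≤ 3) ∧ ∀ j, ∑ i, (B i j).coeff.support.card ≤ 3

/-- Both norms of the support pattern of `B` on `ℓ^p` are at most `c`. -/
def PatLE {m n : ℕ} (p : ℝ) (B : Matrix (Fin m) (Fin n) (MonoidAlgebra R G)) (c : ℝ) : Prop :=
  LeftLE (pat B) p c ∧ RightLE (pat B) p c

end defs

/-- `κ_P`, where `P` is the larger one of `p` and the conjugate exponent. -/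
noncomputable def kapMax (p : ℝ) : ℝ := kap (max p (p / (p - 1)))

/-- `P` has a presentation matrix which is controlled by a small integral matrix. -/
def HasSmall (R : Type) [Ring R] (G : Type) [Group G] (P : Type) [AddCommGroup P]
    [Module (MonoidAlgebra R G) P] : Prop :=
  ∃ (m n : ℕ) (A : Matrix (Fin m) (Fin n) (MonoidAlgebra R G))
    (Q : Matrix (Fin m) (Fin n) (MonoidAlgebra ℤ G)), Presents A P ∧ Controls Q A ∧ Small Q

/-- `P` has a presentation matrix with coefficients in `S ∪ {0}` and at most three terms in each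
row and column, both norms of whose pattern are, for all `1 < p < ∞`, at most `κ_P + ε`. -/
def HasGood {R : Type} [Ring R] (S : Set R) (G : Type) [Group G] (P : Type) [AddCommGroup P]
    [Module (MonoidAlgebra R G) P] (ε : ℝ) : Prop :=
  ∃ (m n : ℕ) (A : Matrix (Fin m) (Fin n) (MonoidAlgebra R G)), Presents A P ∧ CS S A ∧
    ThreeTerms A ∧ ∀ p : ℝ, 1 < p → PatLE p A (kapMax p + ε)

/-- The least norm on `ℓ^p` of the pattern of a presentation matrix of `P`. -/
noncomputable def presNorm (p : ℝ) (R : Type) [Ring R] (G : Type) [Group G] (P : Type)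
    [AddCommGroup P] [Module (MonoidAlgebra R G) P] : ℝ :=
  sInf {c : ℝ | 0 ≤ c ∧ ∃ (m n : ℕ) (A : Matrix (Fin m) (Fin n) (MonoidAlgebra R G)),
    PatLE p A c ∧ Presents A P}

/-- The least norm on `ℓ^p` of the pattern of a presentation matrix of a module which is stably
isomorphic to `P`. -/
noncomputable def classNorm (p : ℝ) (R : Type) [Ring R] (G : Type) [Group G] (P : Type)
    [AddCommGroup P] [Module (MonoidAlgebra R G) P] : ℝ :=
  sInf {c : ℝ | 0 ≤ c ∧ ∃ (m n : ℕ) (A : Matrix (Fin m) (Fin n) (MonoidAlgebra R G)),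
    PatLE p A c ∧ StablyIso (MonoidAlgebra R G) P (Coker A)}

/-- All finitely generated projective `S`-modules are stably free. -/
def AllStablyFree (S : Type) [Ring S] : Prop :=
  ∀ (P : Type) [AddCommGroup P] [Module S P], Module.Finite S P → Module.Projective S P →
    StablyFree S P

/-- All projective `RG`-modules with a presentation matrix both of whose pattern norms on `ℓ^p` are
at most `c` are stably free. -/
def PatStablyFree (R : Type) [Ring R] (G : Type) [Group G] (p c : ℝ) : Prop :=
  ∀ (m n : ℕ) (A : Matrix (Fin m) (Fin n) (MonoidAlgebra R G)), PatLE p A c →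
    Module.Projective (MonoidAlgebra R G) (Coker A) → StablyFree (MonoidAlgebra R G) (Coker A)

section lemmas

theorem ab_pat1 {R : Type} [Ring R] {G : Type} [Group G] (x : MonoidAlgebra R G) :
    ab (pat1 x) = (x.coeff.support.card : ℝ) := by
  rw [ab_eq (pat1 x) x.coeff.support]
  · rw [Finset.sum_congr rfl (g := fun _ => (1 : ℝ))]
    · simp
    · intro g hg
      rw [coeff_pat1, ind_of_ne (Finsupp.mem_support_iff.1 hg)]
      simp
  · intro g hg
    rw [Finsupp.mem_support_iff, coeff_pat1, ind_ne] at hg
    exact Finsupp.mem_support_iff.2 hg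

theorem threeTerms_of {R : Type} [Ring R] {G : Type} [Group G] {m n : ℕ}
    (B : Matrix (Fin m) (Fin n) (MonoidAlgebra R G)) (h : RC (pat B) 3 3) : ThreeTerms B := by
  constructor
  · intro i
    have h1 := h.1 i
    simp only [pat, Matrix.map_apply, ab_pat1] at h1
    exact_mod_cast h1
  · intro j
    have h1 := h.2 j
    simp only [pat, Matrix.map_apply, ab_pat1] at h1
    exact_mod_cast h1

theorem controls_pat {R : Type} [Ring R] {G : Type} [Group G] {m n : ℕ}
    (B : Matrix (Fin m) (Fin n) (MonoidAlgebra R G)) : Controls (pat B) B := by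
  intro i j g h
  rw [coeff_pat, ind_of_ne h]
  exact one_ne_zero

theorem smallVC {R : Type} [Ring R] {G : Type} [Group G] (P : Type) [AddCommGroup P]
    [Module (MonoidAlgebra R G) P] (h : HasSmall R G P) : VCSum R G P := by
  obtain ⟨m, n, A, Q, ⟨e⟩, hQ, hS⟩ := h
  exact modules_noTripod R G P m n A e Q hQ hS.noTripod

theorem smallFree {K : Type} [Field K] {G : Type} [Group G] (htf : TF G) (P : Type)
    [AddCommGroup P] [Module (MonoidAlgebra K G) P] (hP : Module.Projective (MonoidAlgebra K G) P)
    (h : HasSmall K G P) : Module.Free (MonoidAlgebra K G) P := by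
  obtain ⟨m, n, A, Q, ⟨e⟩, hQ, hS⟩ := h
  exact free_noTripod K G htf P hP m n A e Q hQ hS.noTripod

theorem smallStablyFree {G : Type} [Group G] (htf : TF G) (P : Type)
    [AddCommGroup P] [Module (MonoidAlgebra ℤ G) P] (hP : Module.Projective (MonoidAlgebra ℤ G) P)
    (h : HasSmall ℤ G P) : StablyFree (MonoidAlgebra ℤ G) P := by
  obtain ⟨m, n, A, Q, ⟨e⟩, hQ, hS⟩ := h
  obtain ⟨Y, hY⟩ := regular_of_projective A P hP e
  exact (stablyIso_of_equiv e).stablyFree
    (stablyFree_of_SFC A (SFC_noTripod htf A Y hY Q hQ hS.noTripod))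

theorem good {R : Type} [Ring R] [Nontrivial R] {S : Set R} (hS : Gens S) {G : Type} [Group G]
    (P : Type) [AddCommGroup P] [Module (MonoidAlgebra R G) P]
    (hP : Module.FinitePresentation (MonoidAlgebra R G) P) {ε : ℝ} (hε : 0 < ε) :
    HasGood S G P ε := by
  obtain ⟨m, n, A, hCS, hN, he⟩ := pres_lp hS P hP (show 0 < ε / 3 by positivity)
  exact ⟨m, n, A, he, hCS, threeTerms_of _ hN.1, fun p hp => near_all2 hε hN hp⟩

/-- all elements generate -/
theorem gens_univ (R : Type) [Ring R] : Gens (Set.univ : Set R) where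
  one := trivial
  neg := fun _ _ => trivial
  gen := by rw [AddSubgroup.closure_univ]

theorem kapMax_pos (p : ℝ) : 0 < kapMax p := kap_pos _

theorem above {R : Type} [Ring R] [Nontrivial R] {G : Type} [Group G]
    (P : Type) [AddCommGroup P] [Module (MonoidAlgebra R G) P]
    (hP : Module.FinitePresentation (MonoidAlgebra R G) P) {p c : ℝ} (hp : 1 < p)
    (hc : kapMax p < c) :
    0 ≤ c ∧ ∃ (m n : ℕ) (A : Matrix (Fin m) (Fin n) (MonoidAlgebra R G)),
      PatLE p A c ∧ Presents A P := by
  obtain ⟨m, n, A, h1, -, -, h2⟩ := good (gens_univ R) P hP (show 0 < c - kapMax p by linarith)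
  refine ⟨by linarith [kapMax_pos p], m, n, A, ?_, h1⟩
  have h3 := h2 p hp
  rwa [add_sub_cancel] at h3

theorem hasSmall_of {R : Type} [Ring R] {G : Type} [Group G] {m n : ℕ}
    (A : Matrix (Fin m) (Fin n) (MonoidAlgebra R G)) {p c : ℝ} (hp : 1 < p) (h0 : 0 ≤ c)
    (hc : c < kapMax p) (hA : PatLE p A c) : HasSmall R G (Coker A) :=
  ⟨m, n, A, pat A, ⟨LinearEquiv.refl _ _⟩, controls_pat A, small_of_both hp h0 hc hA.1 hA.2⟩

theorem patLE_zero (R : Type) [Ring R] (G : Type) [Group G] (n : ℕ) {p : ℝ} (hp : 0 < p) :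
    PatLE p (0 : Matrix (Fin 0) (Fin n) (MonoidAlgebra R G)) 0 := by
  constructor
  · intro y
    rw [Real.zero_rpow hp.ne', zero_mul]
    unfold Pool.Agent.H61.LQ.lp
    simp
  · intro x
    rw [Real.zero_rpow hp.ne', zero_mul]
    have h1 : x ᵥ* toReal (pat (0 : Matrix (Fin 0) (Fin n) (MonoidAlgebra R G))) = 0 := by
      have h2 : x = 0 := Subsingleton.elim _ _
      rw [h2, Matrix.zero_vecMul]
    rw [h1]
    unfold Pool.Agent.H61.LQ.lp
    simp

theorem coker_zero (S : Type) [Ring S] (n : ℕ) :
    Nonempty ((Fin n → S) ≃ₗ[S] Coker (0 : Matrix (Fin 0) (Fin n) S)) := by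
  have h : LinearMap.range (0 : Matrix (Fin 0) (Fin n) S).vecMulLinear = ⊥ := by
    rw [eq_bot_iff]
    rintro _ ⟨x, rfl⟩
    rw [Matrix.vecMulLinear_apply, Matrix.vecMul_zero]
    exact zero_mem _
  exact ⟨(Submodule.quotEquivOfEqBot _ h).symm⟩

theorem free_pres (K : Type) [Field K] (G : Type) [Group G] (P : Type) [AddCommGroup P]
    [Module (MonoidAlgebra K G) P] (hfin : Module.Finite (MonoidAlgebra K G) P)
    (hfree : Module.Free (MonoidAlgebra K G) P) :
    ∃ n : ℕ, Nonempty (P ≃ₗ[MonoidAlgebra K G] (Fin n → MonoidAlgebra K G)) := by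
  have b := Module.Free.chooseBasis (MonoidAlgebra K G) P
  have hf : Finite (Module.Free.ChooseBasisIndex (MonoidAlgebra K G) P) :=
    Module.Finite.finite_basis b
  have := Fintype.ofFinite (Module.Free.ChooseBasisIndex (MonoidAlgebra K G) P)
  exact ⟨Fintype.card (Module.Free.ChooseBasisIndex (MonoidAlgebra K G) P),
    ⟨(b.reindex (Fintype.equivFin _)).equivFun⟩⟩

/-- a product with the zero module -/
def prodZero (S : Type) [Ring S] (P : Type) [AddCommGroup P] [Module S P] :
    P ≃ₗ[S] (P × (Fin 0 → S)) :=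
  { toFun := fun x => (x, 0)
    map_add' := fun x y => Prod.ext rfl (Subsingleton.elim _ _)
    map_smul' := fun a x => Prod.ext rfl (Subsingleton.elim _ _)
    invFun := fun y => y.1
    left_inv := fun x => rfl
    right_inv := fun y => Prod.ext rfl (Subsingleton.elim _ _) }

theorem stablyIso_zero {S : Type} [Ring S] {P : Type} [AddCommGroup P] [Module S P]
    (h : StablyFree S P) : ∃ m : ℕ, StablyIso S P (Coker (0 : Matrix (Fin 0) (Fin m) S)) := by
  obtain ⟨n, m, ⟨e⟩⟩ := h
  obtain ⟨f⟩ := coker_zero S m
  exact ⟨m, n, 0, ⟨(e.trans f).trans (prodZero S _)⟩⟩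

theorem stablyFree_of_free (K : Type) [Field K] (G : Type) [Group G] (P : Type) [AddCommGroup P]
    [Module (MonoidAlgebra K G) P] (hfin : Module.Finite (MonoidAlgebra K G) P)
    (hfree : Module.Free (MonoidAlgebra K G) P) : StablyFree (MonoidAlgebra K G) P := by
  obtain ⟨n, ⟨e⟩⟩ := free_pres K G P hfin hfree
  exact ⟨0, n, ⟨(prodZero _ P).symm.trans e⟩⟩

/-- the dichotomy for the classes -/
theorem class_dich {R : Type} [Ring R] [Nontrivial R] {G : Type} [Group G] {p : ℝ} (hp : 1 < p)
    (hbelow : ∀ (m n : ℕ) (A : Matrix (Fin m) (Fin n) (MonoidAlgebra R G)),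
      Module.Projective (MonoidAlgebra R G) (Coker A) → HasSmall R G (Coker A) →
      StablyFree (MonoidAlgebra R G) (Coker A))
    (P : Type) [AddCommGroup P] [Module (MonoidAlgebra R G) P]
    (hfin : Module.Finite (MonoidAlgebra R G) P) (hproj : Module.Projective (MonoidAlgebra R G) P) :
    (StablyFree (MonoidAlgebra R G) P ∧ classNorm p R G P = 0) ∨
      (¬ StablyFree (MonoidAlgebra R G) P ∧ classNorm p R G P = kapMax p) := by
  have hfp : Module.FinitePresentation (MonoidAlgebra R G) P :=
    Module.finitePresentation_of_projective _ _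
  by_cases h : StablyFree (MonoidAlgebra R G) P
  · refine Or.inl ⟨h, sInf_zero (fun c hc => hc.1) ?_⟩
    obtain ⟨m, hm⟩ := stablyIso_zero h
    exact ⟨le_rfl, 0, m, 0, patLE_zero R G m (by linarith), hm⟩
  · refine Or.inr ⟨h, sInf_thr (fun c hc => hc.1) _ (fun c hc => ?_) ?_⟩
    · obtain ⟨h0, m, n, A, h1, ⟨h2⟩⟩ := above P hfp hp hc
      exact ⟨h0, m, n, A, h1, stablyIso_of_equiv h2⟩
    · rintro c ⟨h0, m, n, A, h1, h2⟩
      by_contra hlt
      exact h (h2.stablyFree (hbelow m n A (h2.projective hproj)
        (hasSmall_of A hp h0 (not_le.1 hlt) h1)))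

end lemmas

theorem result :
    -- all rings, all groups, all modules: small norms
    (∀ (R : Type) [Ring R] (G : Type) [Group G] (P : Type) [AddCommGroup P]
      [Module (MonoidAlgebra R G) P], HasSmall R G P → VCSum R G P) ∧
    -- all rings, all groups: presentations which are good for all exponents
    (∀ (R : Type) [Ring R] [Nontrivial R] (S : Set R), Gens S → ∀ (G : Type) [Group G]
      (P : Type) [AddCommGroup P] [Module (MonoidAlgebra R G) P],
      Module.FinitePresentation (MonoidAlgebra R G) P → ∀ ε : ℝ, 0 < ε → HasGood S G P ε) ∧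
    -- torsion-free groups: projective modules over fields
    (∀ (K : Type) [Field K] (G : Type) [Group G], TF G → ∀ (P : Type) [AddCommGroup P]
      [Module (MonoidAlgebra K G) P], Module.Projective (MonoidAlgebra K G) P →
      (HasSmall K G P → Module.Free (MonoidAlgebra K G) P) ∧
      (Module.Finite (MonoidAlgebra K G) P → ∀ p : ℝ, 1 < p →
        ((Module.Free (MonoidAlgebra K G) P ∧ presNorm p K G P = 0) ∨
          (¬ Module.Free (MonoidAlgebra K G) P ∧ presNorm p K G P = kapMax p)) ∧
        ((StablyFree (MonoidAlgebra K G) P ∧ classNorm p K G P = 0) ∨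
          (¬ StablyFree (MonoidAlgebra K G) P ∧ classNorm p K G P = kapMax p)))) ∧
    -- torsion-free groups: projective modules over the integers
    (∀ (G : Type) [Group G], TF G → ∀ (P : Type) [AddCommGroup P]
      [Module (MonoidAlgebra ℤ G) P], Module.Projective (MonoidAlgebra ℤ G) P →
      (HasSmall ℤ G P → StablyFree (MonoidAlgebra ℤ G) P) ∧
      (Module.Finite (MonoidAlgebra ℤ G) P → ∀ p : ℝ, 1 < p →
        ((StablyFree (MonoidAlgebra ℤ G) P ∧ classNorm p ℤ G P = 0) ∨
          (¬ StablyFree (MonoidAlgebra ℤ G) P ∧ classNorm p ℤ G P = kapMax p)))) ∧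
    -- above the critical value a bound is no restriction
    (∀ (R : Type) [Ring R] [Nontrivial R] (G : Type) [Group G] (p c : ℝ), 1 < p → kapMax p < c →
      (AllStablyFree (MonoidAlgebra R G) ↔ PatStablyFree R G p c)) := by
  refine ⟨?_, ?_, ?_, ?_, ?_⟩
  · intro R _ G _ P _ _ h
    exact smallVC P h
  · intro R _ _ S hS G _ P _ _ hP ε hε
    exact good hS P hP hε
  · intro K _ G _ htf P _ _ hproj
    refine ⟨smallFree htf P hproj, fun hfin p hp => ⟨?_, ?_⟩⟩
    · have hfp : Module.FinitePresentation (MonoidAlgebra K G) P :=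
        Module.finitePresentation_of_projective _ _
      by_cases h : Module.Free (MonoidAlgebra K G) P
      · refine Or.inl ⟨h, sInf_zero (fun c hc => hc.1) ?_⟩
        obtain ⟨n, ⟨e⟩⟩ := free_pres K G P hfin h
        obtain ⟨f⟩ := coker_zero (MonoidAlgebra K G) n
        exact ⟨le_rfl, 0, n, 0, patLE_zero K G n (by linarith), ⟨e.trans f⟩⟩
      · refine Or.inr ⟨h, sInf_thr (fun c hc => hc.1) _ (fun c hc => above P hfp hp hc) ?_⟩
        rintro c ⟨h0, m, n, A, h1, ⟨h2⟩⟩
        by_contra hlt
        have h3 := smallFree htf (Coker A) (Module.Projective.of_equiv h2)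
          (hasSmall_of A hp h0 (not_le.1 hlt) h1)
        exact h (Module.Free.of_equiv h2.symm)
    · exact class_dich hp (fun m n A h1 h2 => stablyFree_of_free K G (Coker A) inferInstance
        (smallFree htf (Coker A) h1 h2)) P hfin hproj
  · intro G _ htf P _ _ hproj
    exact ⟨smallStablyFree htf P hproj, fun hfin p hp =>
      class_dich hp (fun m n A h1 h2 => smallStablyFree htf (Coker A) h1 h2) P hfin hproj⟩
  · intro R _ _ G _ p c hp hc
    constructor
    · intro h m n A _ hproj
      exact h (Coker A) inferInstance hproj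
    · intro h P _ _ hfin hproj
      have hfp : Module.FinitePresentation (MonoidAlgebra R G) P :=
        Module.finitePresentation_of_projective _ _
      obtain ⟨-, m, n, A, h1, ⟨h2⟩⟩ := above P hfp hp hc
      exact (stablyIso_of_equiv h2).stablyFree (h m n A h1 (Module.Projective.of_equiv h2))

end Pool.Agent.Results.MP_1a2884_al.PatternNormsAllExponents
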