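import Pool.Agent.H1.FH.Over2

/-!
# The projective class group: products, extensions, colimits and trees

Let `C` be a class of regular rings (noetherian, finitely generated modules have finite resolutions by
finitely generated projective modules; not necessarily commutative) which is closed under Laurent
polynomial rings, for instance the class of all regular rings. Let `𝒦(C)` be the class of the groups
`G` such that `K₀(R) → K₀(RH)` is bijective for all rings `R` in `C` and all subgroups `H` of the
groups `G × ℤⁿ`.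

We study the fibered version of this class: the class `𝒱(C)` of the groups `B` such that each group
`G` with a homomorphism to `B` is in `𝒦(C)` as soon as the preimages of the *cyclic* subgroups of `B`
are in `𝒦(C)`. It contains the cyclic groups and the torsion-free nilpotent groups, its torsion-free
members are in `𝒦(C)`, and it is closed under embeddings, products of torsion-free groups, extensions
in which only the preimages of cyclic subgroups have to be considered, torsion-free central extensions,
directed colimits with torsion-free kernels and actions on trees, where only the stabilisers of the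
vertices and subgroups `⟨Q, g⟩` matter which are generated by the pointwise stabiliser `Q` of a segment
of a ray, which can be chosen as long as one likes, and one element `g` which translates this segment
along the ray. If a torsion-free group `G` acts on a tree and has a homomorphism to a group in `𝒱(C)`
which is injective on the stabilisers of the edges (or of long segments) then `G` is in `𝒦(C)` as soon
as the stabilisers of the vertices are.

The proof for homomorphisms to `ℤ²` is an algebraic version of the method of Farrell and Hsiang for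
invertible matrices over `R[t, t⁻¹]G`, with the boundary map to `K₀(RG)`.

The group `K₀` is described by idempotent matrices: the elements of `K₀(R)` are the differences
`[p] - [q]` for idempotent matrices `p` and `q` over `R`.
-/

set_option autoImplicit false

namespace Pool.Agent.Results.MP_1a2884_al.ProductsAndExtensions

open Matrix

/-- An idempotent matrix over `R`. It stands for the finitely generated projective left module which
is its row space; all finitely generated projective modules are of this form. -/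
structure IdemMatrix (R : Type) [Ring R] where
  /-- the size -/
  size : ℕ
  /-- the matrix -/
  mat : Matrix (Fin size) (Fin size) R
  idem : mat * mat = mat

section idem

variable {R S : Type} [Ring R] [Ring S]

/-- The projective modules of the idempotent matrices `p` and `q` are isomorphic. -/
def IdemMatrix.Iso (p q : IdemMatrix R) : Prop :=
  ∃ (u : Matrix (Fin p.size) (Fin q.size) R) (w : Matrix (Fin q.size) (Fin p.size) R),
    u * w = p.mat ∧ w * u = q.mat

/-- The direct sum: the block diagonal matrix with the blocks `p` and `q`. -/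
def IdemMatrix.sum (p q : IdemMatrix R) : IdemMatrix R where
  size := p.size + q.size
  mat := (fromBlocks p.mat 0 0 q.mat).submatrix finSumFinEquiv.symm finSumFinEquiv.symm
  idem := by
    rw [Matrix.submatrix_mul_equiv, Pool.Agent.H1.KK.blocks_idem p.idem q.idem]

/-- The image under a ring homomorphism, applied to the entries. -/
def IdemMatrix.map (φ : R →+* S) (p : IdemMatrix R) : IdemMatrix S where
  size := p.size
  mat := p.mat.map φ
  idem := by rw [← Matrix.map_mul, p.idem]

/-- The equation `[p] - [q] = [p'] - [q']` in the Grothendieck group `K₀(R)` of the isomorphism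
classes of finitely generated projective modules. -/
def K0Eq (p q p' q' : IdemMatrix R) : Prop :=
  ∃ r : IdemMatrix R, ((p.sum q').sum r).Iso ((p'.sum q).sum r)

/-- The map `K₀(R) → K₀(S)` induced by the ring homomorphism is surjective and injective. -/
def K0Bijective (φ : R →+* S) : Prop :=
  (∀ P Q : IdemMatrix S, ∃ p q : IdemMatrix R, K0Eq (p.map φ) (q.map φ) P Q) ∧
  ∀ p q p' q' : IdemMatrix R, K0Eq (p.map φ) (q.map φ) (p'.map φ) (q'.map φ) → K0Eq p q p' q'

end idem

/-- The canonical homomorphism `R → RG`. -/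
noncomputable def coefficients (R : Type) [Ring R] (G : Type) [Group G] :
    R →+* MonoidAlgebra R G := MonoidAlgebra.singleOneRingHom

/-- The module `M` has a resolution of length at most `n` by finitely generated projective modules,
all of which except perhaps the last one are free. -/
def HasResolution (R : Type) [Ring R] : ∀ (_ : ℕ) (M : Type) [AddCommGroup M] [Module R M], Prop
  | 0, M, _, _ => Module.Finite R M ∧ Module.Projective R M
  | n + 1, M, _, _ => ∃ (ι : Type) (_ : Fintype ι) (f : (ι → R) →ₗ[R] M),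
      Function.Surjective f ∧ HasResolution R n (LinearMap.ker f)

/-- The ring `R` is (left) regular: left noetherian, and every finitely generated left module has a
finite resolution by finitely generated projective modules. -/
def Regular (R : Type) [Ring R] : Prop :=
  IsNoetherianRing R ∧
  ∀ (M : Type) [AddCommGroup M] [Module R M] [Module.Finite R M], ∃ n, HasResolution R n M

/-- A class of regular rings which contains with `R` the ring of Laurent polynomials `R[t, t⁻¹]`. -/
structure LaurentClosed (C : ∀ (R : Type) [Ring R], Prop) : Prop where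
  regular : ∀ (R : Type) [Ring R], C R → Regular R
  laurent : ∀ (R : Type) [Ring R], C R → C (MonoidAlgebra R (Multiplicative ℤ))

/-- The class `𝒦(C)` of the groups `G` such that `K₀(R) → K₀(RH)` is bijective for all rings `R` in
`C` and all subgroups `H` of the groups `G × ℤⁿ`. -/
def ClassK (C : ∀ (R : Type) [Ring R], Prop) (G : Type) [Group G] : Prop :=
  ∀ (n : ℕ) (H : Subgroup (G × Multiplicative (Fin n → ℤ))) (R : Type) [Ring R], C R →
    K0Bijective (coefficients R H)

/-- The class `𝒱(C)`: each group `G` with a homomorphism `f` to `B` such that the preimages of the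
cyclic subgroups of `B` are in `𝒦(C)` is itself in `𝒦(C)`. -/
def ClassV (C : ∀ (R : Type) [Ring R], Prop) (B : Type) [Group B] : Prop :=
  ∀ (G : Type) [Group G] (f : G →* B),
    (∀ D : Subgroup B, IsCyclic D → ClassK C (D.comap f)) → ClassK C G

/-- The group is torsion-free. -/
def TorsionFree (G : Type) [Group G] : Prop :=
  ∀ g : G, IsOfFinOrder g → g = 1

/-- The group `G` is the directed colimit of the groups `H i`, `i` in `I`, along the homomorphisms
`f i j`, which need not be injective; the maps to the colimit are the homomorphisms `φ i`. -/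
structure DirectedColimit {I : Type} [Preorder I] (H : I → Type) [∀ i, Group (H i)]
    (f : ∀ i j, i ≤ j → H i →* H j) {G : Type} [Group G] (φ : ∀ i, H i →* G) : Prop where
  nonempty : Nonempty I
  directed : ∀ i j : I, ∃ l, i ≤ l ∧ j ≤ l
  trans : ∀ (i j l : I) (h : i ≤ j) (h' : j ≤ l) (x : H i),
    f j l h' (f i j h x) = f i l (h.trans h') x
  comp : ∀ (i j : I) (h : i ≤ j) (x : H i), φ j (f i j h x) = φ i x
  surj : ∀ g : G, ∃ (i : I) (x : H i), φ i x = g
  inj : ∀ (i : I) (x : H i), φ i x = 1 → ∃ (j : I) (h : i ≤ j), f i j h x = 1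

/-- A ray: an infinite path without backtracking. -/
def IsRay {V : Type} (T : SimpleGraph V) (p : ℕ → V) : Prop :=
  (∀ i, T.Adj (p i) (p (i + 1))) ∧ ∀ i, p (i + 2) ≠ p i

/-- The pointwise stabiliser of the initial segment `p 0, …, p n` of a ray. -/
def segmentStabilizer (G : Type) [Group G] {V : Type} [MulAction G V] (p : ℕ → V) (n : ℕ) :
    Subgroup G :=
  fixingSubgroup G (p '' Set.Iic n)

/-- The ring `R` is (left) regular coherent: every finitely presented left module has a finite
resolution by finitely generated projective modules. -/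
def RegularCoherent (R : Type) [Ring R] : Prop :=
  ∀ (M : Type) [AddCommGroup M] [Module R M] [Module.FinitePresentation R M],
    ∃ n, HasResolution R n M

/-- The action of `G` on the vertices of the tree `T` is by graph automorphisms and without
inversions. -/
structure TreeAction (G : Type) [Group G] {V : Type} [MulAction G V] (T : SimpleGraph V) :
    Prop where
  tree : T.IsTree
  adj : ∀ (g : G) (v w : V), T.Adj v w → T.Adj (g • v) (g • w)
  noInversion : ∀ (g : G) (v w : V), T.Adj v w → ¬ (g • v = w ∧ g • w = v)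

open Pool.Agent.H1.MV Pool.Agent.H1.MK Pool.Agent.H1.KK Pool.Agent.H1.FH

section proofs

variable {R S : Type} [Ring R] [Ring S]

theorem iso_iff (p q : IdemMatrix R) : p.Iso q ↔ Nonempty (Mo p.mat ≃ₗ[R] Mo q.mat) := by
  constructor
  · rintro ⟨u, w, h1, h2⟩
    exact ⟨moUw u w h1 h2 p.idem q.idem⟩
  · rintro ⟨f⟩
    exact mo_uw p.idem q.idem f

/-- reindexing -/
def moRe {m n : Type} [Fintype m] [DecidableEq m] [Fintype n] [DecidableEq n] (e : n ≃ m)
    {M : Matrix m m R} (hM : M * M = M) : Mo (M.submatrix e e) ≃ₗ[R] Mo M :=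
  moUw (M.submatrix e id) (M.submatrix id e)
    (by
      have := Matrix.submatrix_mul_equiv M M e (Equiv.refl m) e
      rw [hM] at this
      exact this)
    (by
      rw [Matrix.submatrix_mul_equiv, hM, Matrix.submatrix_id_id])
    (by rw [Matrix.submatrix_mul_equiv, hM]) hM

/-- the module of the direct sum -/
def moSum (p q : IdemMatrix R) : Mo (p.sum q).mat ≃ₗ[R] (Mo p.mat × Mo q.mat) :=
  (moRe finSumFinEquiv.symm (blocks_idem p.idem q.idem)).trans (moBlocks p.mat q.mat)

/-- the module of a sum of three matrices -/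
def moSum3 (p q r : IdemMatrix R) :
    Mo ((p.sum q).sum r).mat ≃ₗ[R] ((Mo p.mat × Mo q.mat) × Mo r.mat) :=
  (moSum (p.sum q) r).trans (LinearEquiv.prodCongr (moSum p q) (LinearEquiv.refl R _))

theorem k0Eq_iff (p q p' q' : IdemMatrix R) : K0Eq p q p' q' ↔ ∃ r : IdemMatrix R,
    Nonempty (((Mo p.mat × Mo q'.mat) × Mo r.mat) ≃ₗ[R] ((Mo p'.mat × Mo q.mat) × Mo r.mat)) := by
  constructor
  · rintro ⟨r, h⟩
    rw [iso_iff] at h
    obtain ⟨f⟩ := h
    exact ⟨r, ⟨((moSum3 p q' r).symm.trans f).trans (moSum3 p' q r)⟩⟩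
  · rintro ⟨r, ⟨f⟩⟩
    refine ⟨r, ?_⟩
    rw [iso_iff]
    exact ⟨((moSum3 p q' r).trans f).trans (moSum3 p' q r).symm⟩

/-- the identity matrix -/
def idMat (R : Type) [Ring R] (n : ℕ) : IdemMatrix R := ⟨n, 1, Matrix.one_mul _⟩

/-- an idempotent matrix with arbitrary index set -/
noncomputable def ofIdem {ν : Type} [Fintype ν] [DecidableEq ν] (p : Matrix ν ν R)
    (hp : p * p = p) : IdemMatrix R where
  size := Fintype.card ν
  mat := p.submatrix (Fintype.equivFin ν).symm (Fintype.equivFin ν).symm
  idem := by rw [Matrix.submatrix_mul_equiv, hp]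

theorem sum_map (φ : R →+* S) (p q : IdemMatrix R) :
    (p.sum q).map φ = (p.map φ).sum (q.map φ) := by
  unfold IdemMatrix.sum IdemMatrix.map
  congr 1
  exact congrArg (fun M => M.submatrix finSumFinEquiv.symm finSumFinEquiv.symm)
    (blocks_map φ p.mat q.mat)

theorem Iso.map {p q : IdemMatrix R} (φ : R →+* S) (h : p.Iso q) : (p.map φ).Iso (q.map φ) := by
  obtain ⟨u, w, h1, h2⟩ := h
  refine ⟨u.map φ, w.map φ, ?_, ?_⟩
  · change u.map φ * w.map φ = p.mat.map φ
    rw [← Matrix.map_mul, h1]
  · change w.map φ * u.map φ = q.mat.map φ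
    rw [← Matrix.map_mul, h2]

theorem k0Eq_map (φ : R →+* S) {p q p' q' : IdemMatrix R} (h : K0Eq p q p' q') :
    K0Eq (p.map φ) (q.map φ) (p'.map φ) (q'.map φ) := by
  obtain ⟨r, h⟩ := h
  refine ⟨r.map φ, ?_⟩
  have h1 := Iso.map φ h
  rwa [sum_map, sum_map, sum_map, sum_map] at h1

theorem map_map' {Q : Type} [Ring Q] (φ : R →+* S) (ρ : S →+* Q) (p : IdemMatrix R) :
    (p.map φ).map ρ = p.map (ρ.comp φ) := rfl

theorem map_id' (p : IdemMatrix R) : p.map (RingHom.id R) = p := by
  unfold IdemMatrix.map
  congr 1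

/-- permutations of factors -/
def perm4 (A B C D : Type) [AddCommGroup A] [Module R A] [AddCommGroup B] [Module R B]
    [AddCommGroup C] [Module R C] [AddCommGroup D] [Module R D] :
    ((A × B) × (C × D)) ≃ₗ[R] ((A × D) × (C × B)) where
  toFun x := ((x.1.1, x.2.2), (x.2.1, x.1.2))
  map_add' _ _ := rfl
  map_smul' _ _ := rfl
  invFun x := ((x.1.1, x.2.2), (x.2.1, x.1.2))
  left_inv _ := rfl
  right_inv _ := rfl

/-- the surjectivity -/
theorem surj_of_allSI {φ : R →+* S} (h : AllSI φ) (P Q : IdemMatrix S) :
    ∃ p q : IdemMatrix R, K0Eq (p.map φ) (q.map φ) P Q := by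
  have i1 := mo_finite P.mat
  have i2 := mo_projective P.idem
  have i3 := mo_finite Q.mat
  have i4 := mo_projective Q.idem
  obtain ⟨ν, _, _, p₁, hp₁, a, b, ⟨f⟩⟩ := h (Mo P.mat)
  obtain ⟨μ, _, _, q₁, hq₁, c, d, ⟨g⟩⟩ := h (Mo Q.mat)
  -- `f : P × S^a ≃ p₁ × S^b` and `g : Q × S^c ≃ q₁ × S^d`
  let p : IdemMatrix R := ((ofIdem p₁ hp₁).sum (idMat R b)).sum (idMat R c)
  let q : IdemMatrix R := ((ofIdem q₁ hq₁).sum (idMat R d)).sum (idMat R a)
  have one : ∀ n : ℕ, Nonempty (Mo ((idMat R n).map φ).mat ≃ₗ[S] (Fin n → S)) := by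
    intro n
    have h1 : ((idMat R n).map φ).mat = 1 := Matrix.map_one _ (map_zero _) (map_one _)
    rw [h1]
    exact ⟨moOne S (Fin n)⟩
  have sm : ∀ (ν : Type) [Fintype ν] [DecidableEq ν] (p₁ : Matrix ν ν R) (hp₁ : p₁ * p₁ = p₁)
      (b c : ℕ), Nonempty (Mo ((((ofIdem p₁ hp₁).sum (idMat R b)).sum (idMat R c)).map φ).mat ≃ₗ[S]
        ((Mo (p₁.map φ) × (Fin b → S)) × (Fin c → S))) := by
    intro ν _ _ p₁ hp₁ b c
    rw [sum_map, sum_map]
    obtain ⟨e1⟩ := one b
    obtain ⟨e2⟩ := one c
    have e3 : Mo ((ofIdem p₁ hp₁).map φ).mat ≃ₗ[S] Mo (p₁.map φ) := by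
      have h1 : ((ofIdem p₁ hp₁).map φ).mat =
          (p₁.map φ).submatrix (Fintype.equivFin ν).symm (Fintype.equivFin ν).symm := rfl
      rw [h1]
      exact moRe _ (map_idem φ hp₁)
    exact ⟨(moSum3 _ _ _).trans (LinearEquiv.prodCongr (LinearEquiv.prodCongr e3 e1) e2)⟩
  obtain ⟨ep⟩ := sm ν p₁ hp₁ b c
  obtain ⟨eq⟩ := sm μ q₁ hq₁ d a
  refine ⟨p, q, (k0Eq_iff _ _ _ _).2 ⟨idMat S 0, ⟨?_⟩⟩⟩
  -- `(p × Q) ≃ (P × q)`
  have e1 : (Mo (p.map φ).mat × Mo Q.mat) ≃ₗ[S] ((Mo P.mat × (Fin a → S)) ×
      (Mo Q.mat × (Fin c → S))) :=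
    (LinearEquiv.prodCongr (ep.trans (LinearEquiv.prodCongr f.symm
      (LinearEquiv.refl S (Fin c → S)))) (LinearEquiv.refl S (Mo Q.mat))).trans
      ((LinearEquiv.prodAssoc S _ _ _).trans (LinearEquiv.prodCongr (LinearEquiv.refl S _)
        (LinearEquiv.prodComm S _ _)))
  have e2 : ((Mo P.mat × (Fin a → S)) × (Mo Q.mat × (Fin c → S))) ≃ₗ[S]
      (Mo P.mat × Mo (q.map φ).mat) :=
    (LinearEquiv.prodCongr (LinearEquiv.refl S _) g).trans
      ((LinearEquiv.prodAssoc S _ _ _).trans (LinearEquiv.prodCongr (LinearEquiv.refl S (Mo P.mat))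
        ((LinearEquiv.prodComm S _ _).trans eq.symm)))
  exact LinearEquiv.prodCongr (e1.trans e2) (LinearEquiv.refl S _)

theorem k0Bijective_of_allSI {φ : R →+* S} {ρ : S →+* R} (hρ : ρ.comp φ = RingHom.id R)
    (h : AllSI φ) : K0Bijective φ := by
  refine ⟨surj_of_allSI h, ?_⟩
  intro p q p' q' h1
  have h2 := k0Eq_map ρ h1
  rwa [map_map', map_map', map_map', map_map', hρ, map_id', map_id', map_id', map_id'] at h2

theorem allSI_of_k0Bijective {φ : R →+* S} (h : K0Bijective φ) : AllSI φ := by
  apply AllSI.of_mo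
  intro n P hP
  obtain ⟨p, q, h1⟩ := h.1 ⟨n, P, hP⟩ (idMat S 0)
  rw [k0Eq_iff] at h1
  obtain ⟨r, ⟨f⟩⟩ := h1
  have g0 : ∀ p : IdemMatrix R, SI φ (Mo (p.map φ).mat) := fun p =>
    ⟨Fin p.size, inferInstance, inferInstance, p.mat, p.idem, SE.refl _⟩
  have g1 : SI φ (Mo (idMat S 0).mat) := by
    have h2 : (idMat S 0).mat = ((1 : Matrix (Fin 0) (Fin 0) R).map φ) := by
      ext i
      exact i.elim0
    exact ⟨Fin 0, inferInstance, inferInstance, 1, Matrix.one_mul _, by rw [h2]; exact SE.refl _⟩
  -- add the complement of `r`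
  have e1 : (((Mo (p.map φ).mat × Mo (idMat S 0).mat) × Mo r.mat) × Mo (1 - r.mat)) ≃ₗ[S]
      (((Mo P × Mo (q.map φ).mat) × Mo r.mat) × Mo (1 - r.mat)) :=
    LinearEquiv.prodCongr f (LinearEquiv.refl S _)
  have e2 : ∀ (A : Type) [AddCommGroup A] [Module S A],
      Nonempty (((A × Mo r.mat) × Mo (1 - r.mat)) ≃ₗ[S] (A × (Fin r.size → S))) :=
    fun A _ _ => ⟨(LinearEquiv.prodAssoc S _ _ _).trans
      (LinearEquiv.prodCongr (LinearEquiv.refl S A) (dec r.mat r.idem).symm)⟩
  obtain ⟨e3⟩ := e2 (Mo (p.map φ).mat × Mo (idMat S 0).mat)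
  obtain ⟨e4⟩ := e2 (Mo P × Mo (q.map φ).mat)
  have s1 : SI φ ((Mo P × Mo (q.map φ).mat) × (Fin r.size → S)) :=
    (((g0 p).prod g1).prod SI.of_free).iso ((e3.symm.trans e1).trans e4)
  have s2 : SI φ ((Mo (q.map φ).mat × (Fin r.size → S)) × Mo P) :=
    s1.iso ((LinearEquiv.prodAssoc S _ _ _).trans (LinearEquiv.prodComm S _ _))
  exact SI.of_prod ((g0 q).prod SI.of_free) s2

theorem k0Bijective_iff (k : Type) [Ring k] (H : Type) [Group H] :
    K0Bijective (coefficients k H) ↔ AllSI (io k H) := by
  constructor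
  · exact allSI_of_k0Bijective
  · refine k0Bijective_of_allSI (ρ := aug k H) ?_
    exact RingHom.ext fun c => aug_io c

end proofs

theorem hasResolution_iff {R : Type} [Ring R] {n : ℕ} : ∀ {M : Type} [AddCommGroup M] [Module R M],
    HasResolution R n M ↔ FPD R n M := by
  induction n with
  | zero =>
    intro M _ _
    exact Iff.rfl
  | succ n ih =>
    intro M _ _
    constructor
    · rintro ⟨ι, i, f, hf, hk⟩
      exact ⟨ι, i, f, hf, ih.1 hk⟩
    · rintro ⟨ι, i, f, hf, hk⟩
      exact ⟨ι, i, f, hf, ih.2 hk⟩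

theorem regular_iff (k : Type) [Ring k] : Regular k ↔ Reg k := by
  constructor
  · rintro ⟨h1, h2⟩
    refine ⟨h1, nice_of_fpd ?_⟩
    intro M _ _ _
    obtain ⟨n, hn⟩ := h2 M
    exact ⟨n, hasResolution_iff.1 hn⟩
  · intro h
    have := h.noeth
    refine ⟨h.noeth, ?_⟩
    intro M _ _ _
    obtain ⟨n, hn⟩ := fpd_of_nice h.nice M
    exact ⟨n, hasResolution_iff.2 hn⟩

theorem LaurentClosed.rcls {C : ∀ (R : Type) [Ring R], Prop} (h : LaurentClosed C) : RCls C :=
  ⟨fun k _ hk => (regular_iff k).1 (h.regular k hk), h.laurent⟩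

theorem k_iff (C : ∀ (R : Type) [Ring R], Prop) (G : Type) [Group G] : ClassK C G ↔
    St (fun G _ => ∀ (k : Type) [Ring k], C k → AllSI (io k G)) G :=
  ⟨fun h n H k _ hk => (k0Bijective_iff k H).1 (h n H k hk),
    fun h n H k _ hk => (k0Bijective_iff k H).2 (h n H k hk)⟩

theorem v_iff (C : ∀ (R : Type) [Ring R], Prop) (B : Type) [Group B] : ClassV C B ↔
    Fy (St (fun G _ => ∀ (k : Type) [Ring k], C k → AllSI (io k G))) B := by
  constructor
  · intro h G _ f hf
    exact (k_iff C G).1 (h G f fun A hA => (k_iff C _).2 (hf A hA))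
  · intro h G _ f hf
    exact (k_iff C G).2 (h G f fun A hA => (k_iff C _).1 (hf A hA))

theorem tf_iff (G : Type) [Group G] : TorsionFree G ↔ TF G := by
  constructor
  · intro h x n hn hx
    exact h x (isOfFinOrder_iff_pow_eq_one.2 ⟨n, hn, hx⟩)
  · intro h x hx
    obtain ⟨n, hn, hx⟩ := isOfFinOrder_iff_pow_eq_one.1 hx
    exact h x n hn hx

theorem nice_of {R : Type} [Ring R] (h : RegularCoherent R) : Nice R := by
  apply Pool.Agent.H1.MV.RegularCoherent.nice
  intro M _ _ _
  obtain ⟨d, hd⟩ := h M
  exact ⟨d, hasResolution_iff.1 hd⟩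

theorem colim_iff {I : Type} [Preorder I] {H : I → Type} [∀ i, Group (H i)]
    {f : ∀ i j, i ≤ j → H i →* H j} {G : Type} [Group G] {φ : ∀ i, H i →* G}
    (h : DirectedColimit H f φ) : DC H f φ :=
  ⟨h.nonempty, h.directed, h.trans, h.comp, h.surj, h.inj⟩

theorem segmentStabilizer_eq (G : Type) [Group G] {V : Type} [MulAction G V] (p : ℕ → V) (n : ℕ) :
    segmentStabilizer G p n = Fx G n p := by
  ext g
  unfold segmentStabilizer
  rw [mem_fixingSubgroup_iff]
  constructor
  · intro h i hi
    exact h _ ⟨i, hi, rfl⟩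
  · rintro h _ ⟨i, hi, rfl⟩
    exact h i hi

/-- **The projective class group: products, extensions, colimits and trees.** The class of all regular
rings is closed under Laurent polynomial rings. Let `C` be any class of regular rings with this
property, let `𝒦(C)` be the class of the groups `G` such that the canonical map `K₀(R) → K₀(RH)` is
bijective for all rings `R` in `C` and all subgroups `H` of the groups `G × ℤⁿ`, and let `𝒱(C)` be the
class of the groups `B` such that each group `G` with a homomorphism `f` to `B` for which the preimages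
of the cyclic subgroups of `B` are in `𝒦(C)` is itself in `𝒦(C)`.

(1) Cyclic groups and torsion-free nilpotent groups are in `𝒱(C)`. Torsion-free groups in `𝒱(C)` are
in `𝒦(C)`. If `A` is in `𝒦(C)` and `B` is in `𝒱(C)` and torsion-free then `A × B` is in `𝒦(C)`.

(2) `𝒱(C)` is closed under embeddings; products of torsion-free groups; directed colimits `G` of groups
`H i` such that the kernels of the homomorphisms `H i → G` are torsion-free; extensions: if `f : B → L`
is a homomorphism such that `L` and the preimages of the cyclic subgroups of `L` are in `𝒱(C)` then `B`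
is in `𝒱(C)`; central extensions: if `B` is torsion-free and `f : B → L` is a homomorphism with central
kernel and `L` is in `𝒱(C)` then `B` is in `𝒱(C)`.

(3) Let `G` act on a tree `T` by graph automorphisms and without inversions. Then `G` is in `𝒱(C)` if
and only if the stabilisers of the vertices are in `𝒱(C)` and for each ray `p` and each `d > 0` there
is `n` such that for all elements `g` of `G` with `g (p (i + d)) = p i` for `i ≤ n` the subgroup
generated by the pointwise stabiliser of `p 0, …, p n` and `g` is in `𝒱(C)`.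

(4) Let `G` be torsion-free and let it act on a tree `T` by graph automorphisms and without inversions.
Let `f` be a homomorphism from `G` to a group `B` in `𝒱(C)` such that for each ray `p` there is `n`
such that `f` is injective on the pointwise stabiliser of `p 0, …, p n`. Then `G` is in `𝒦(C)` (in
`𝒱(C)`) if and only if the stabilisers of the vertices are in `𝒦(C)` (in `𝒱(C)`).

(5) Let `f` be a homomorphism from `G` to a group `B` in `𝒱(C)` such that the group rings `R[ker f]`
are regular coherent for all `R` in `C` and the preimages of the finite cyclic subgroups of `B` are in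
`𝒦(C)`. Then `G` is in `𝒦(C)`. -/
theorem result :
    LaurentClosed (fun R _ => Regular R) ∧
    ∀ C : ∀ (R : Type) [Ring R], Prop, LaurentClosed C →
      (∀ (G : Type) [Group G], IsCyclic G → ClassV C G) ∧
      (∀ (G : Type) [Group G], Group.IsNilpotent G → TorsionFree G → ClassV C G) ∧
      (∀ (G : Type) [Group G], ClassV C G → TorsionFree G → ClassK C G) ∧
      (∀ (A B : Type) [Group A] [Group B], ClassK C A → ClassV C B → TorsionFree B →
        ClassK C (A × B)) ∧
      (∀ (G H : Type) [Group G] [Group H] (f : G →* H), Function.Injective f →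
        ClassV C H → ClassV C G) ∧
      (∀ (A B : Type) [Group A] [Group B], ClassV C A → TorsionFree A → ClassV C B →
        TorsionFree B → ClassV C (A × B)) ∧
      (∀ (I : Type) [Preorder I] (H : I → Type) [∀ i, Group (H i)]
        (f : ∀ i j, i ≤ j → H i →* H j) (G : Type) [Group G] (φ : ∀ i, H i →* G),
        DirectedColimit H f φ → (∀ i : I, TorsionFree (φ i).ker) → (∀ i, ClassV C (H i)) →
        ClassV C G) ∧
      (∀ (B L : Type) [Group B] [Group L] (f : B →* L), ClassV C L →
        (∀ D : Subgroup L, IsCyclic D → ClassV C (D.comap f)) → ClassV C B) ∧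
      (∀ (B L : Type) [Group B] [Group L] (f : B →* L), f.ker ≤ Subgroup.center B →
        TorsionFree B → ClassV C L → ClassV C B) ∧
      (∀ (G V : Type) [Group G] [MulAction G V] (T : SimpleGraph V), TreeAction G T →
        (ClassV C G ↔
          (∀ v : V, ClassV C (MulAction.stabilizer G v)) ∧
          ∀ p : ℕ → V, IsRay T p → ∀ d : ℕ, 0 < d → ∃ n,
            ∀ g : G, (∀ i ≤ n, g • p (i + d) = p i) →
              ClassV C (Subgroup.closure ((segmentStabilizer G p n : Set G) ∪ {g})))) ∧
      (∀ (G V : Type) [Group G] [MulAction G V] (T : SimpleGraph V), TreeAction G T →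
        TorsionFree G → ∀ (B : Type) [Group B] (f : G →* B), ClassV C B →
        (∀ p : ℕ → V, IsRay T p → ∃ n, ∀ g ∈ segmentStabilizer G p n, f g = 1 → g = 1) →
        ((ClassK C G ↔ ∀ v : V, ClassK C (MulAction.stabilizer G v)) ∧
          (ClassV C G ↔ ∀ v : V, ClassV C (MulAction.stabilizer G v)))) ∧
      (∀ (G B : Type) [Group G] [Group B] (f : G →* B), ClassV C B →
        (∀ (R : Type) [Ring R], C R → RegularCoherent (MonoidAlgebra R f.ker)) →
        (∀ D : Subgroup B, IsCyclic D → Finite D → ClassK C (D.comap f)) → ClassK C G) := by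
  refine ⟨⟨fun _ _ h => h, fun R _ h => ?_⟩, ?_⟩
  · exact (regular_iff _).2 ((regular_iff R).1 h).lau
  intro C hC
  have hB := base_k0 hC.rcls
  have hBP := basep_k0 hC.rcls
  have hW := hB.tcls
  have hP := hBP.tclsp
  have subK : ∀ (G H : Type) [Group G] [Group H] (f : G →* H), Function.Injective f →
      ClassK C H → ClassK C G :=
    fun G H _ _ f hf h => (k_iff C G).2 (hW.inj G H f hf ((k_iff C H).1 h))
  have subV : ∀ (G H : Type) [Group G] [Group H] (f : G →* H), Function.Injective f →
      ClassV C H → ClassV C G :=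
    fun G H _ _ f hf h => (v_iff C G).2 (hP.fy_inj f hf ((v_iff C H).1 h))
  refine ⟨?_, ?_, ?_, ?_, subV, ?_, ?_, ?_, ?_, ?_, ?_, ?_⟩
  · intro G _ h
    exact (v_iff C G).2 (hP.fy_cyc h)
  · intro G _ h1 h2
    exact (v_iff C G).2 (hP.fy_nilpotent ((tf_iff G).1 h2))
  · intro G _ h h2
    exact (k_iff C G).2 (hP.fy_self ((v_iff C G).1 h) ((tf_iff G).1 h2))
  · intro A B _ _ hA hB' h2
    exact (k_iff C _).2 (hP.fy_prodW ((k_iff C A).1 hA) ((v_iff C B).1 hB') ((tf_iff B).1 h2))
  · intro A B _ _ hA h1 hB' h2
    exact (v_iff C _).2 (hP.fy_prod ((v_iff C A).1 hA) ((tf_iff A).1 h1) ((v_iff C B).1 hB')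
      ((tf_iff B).1 h2))
  · intro I _ H _ f G _ φ h htf hA
    refine (v_iff C _).2 (hP.fy_colim (colim_iff h) ?_ fun i => (v_iff C _).1 (hA i))
    intro i x n hn hx hφ
    exact congrArg Subtype.val ((tf_iff _).1 (htf i) ⟨x, MonoidHom.mem_ker.2 hφ⟩ n hn
      (Subtype.ext hx))
  · intro B L _ _ f hL hA
    exact (v_iff C _).2 (hP.fy_ext f ((v_iff C L).1 hL) fun A h => (v_iff C _).1 (hA A h))
  · intro B L _ _ f hf h1 hL
    exact (v_iff C _).2 (hP.fy_central ((tf_iff B).1 h1) f hf ((v_iff C L).1 hL))
  · rintro G V _ _ T ⟨hT, hact, hinv⟩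
    constructor
    · intro h
      have hs : ∀ S : Subgroup G, ClassV C S :=
        fun S => subV S G S.subtype S.subtype_injective h
      exact ⟨fun v => hs _, fun p _ d _ => ⟨0, fun g _ => hs _⟩⟩
    · rintro ⟨hV, hm⟩
      rw [v_iff]
      refine hP.fy_tree hT hact hinv (fun v => (v_iff C _).1 (hV v)) ?_
      intro p h1 h2 d hd
      obtain ⟨n, hn⟩ := hm p ⟨h1, h2⟩ d hd
      refine ⟨n, ?_⟩
      rw [segmentStabilizer_eq] at hn
      exact fun g hg => (v_iff C _).1 (hn g hg)
  · rintro G V _ _ T ⟨hT, hact, hinv⟩ htf B _ f hVB hf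
    have hf' : ∀ p : ℕ → V, (∀ i, T.Adj (p i) (p (i + 1))) → (∀ i, p (i + 2) ≠ p i) →
        ∃ n, ∀ x ∈ Fx G n p, f x = 1 → x = 1 := by
      intro p h1 h2
      obtain ⟨n, hn⟩ := hf p ⟨h1, h2⟩
      rw [segmentStabilizer_eq] at hn
      exact ⟨n, hn⟩
    constructor
    · constructor
      · intro h v
        exact subK _ G (MulAction.stabilizer G v).subtype (Subgroup.subtype_injective _) h
      · intro h
        exact (k_iff C _).2 (hP.ovr ((v_iff C B).1 hVB) hT hact hinv
          (fun v => (k_iff C _).1 (h v)) ((tf_iff G).1 htf) f hf')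
    · constructor
      · intro h v
        exact subV _ G (MulAction.stabilizer G v).subtype (Subgroup.subtype_injective _) h
      · intro h
        exact (v_iff C _).2 (hP.fy_ovr ((v_iff C B).1 hVB) hT hact hinv
          (fun v => (v_iff C _).1 (h v)) ((tf_iff G).1 htf) f hf')
  · intro G B _ _ f hVB hN hfin
    exact (k_iff C _).2 (hBP.nice_ker ((v_iff C B).1 hVB) f
      (fun m => nice_zn hC.rcls m fun k _ hk => nice_of (hN k hk))
      fun D h1 h2 => (k_iff C _).1 (hfin D h1 h2))

end Pool.Agent.Results.MP_1a2884_al.ProductsAndExtensions
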