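import Pool.Agent.H1.KK.Colim2

/-!
# The projective class group of group rings of groups acting on trees

Let `C` be a class of regular rings (noetherian, finitely generated modules have finite resolutions by
finitely generated projective modules; not necessarily commutative) which is closed under Laurent
polynomial rings, for instance the class of all regular rings. Let `𝒦(C)` be the class of the groups
`G` such that `K₀(R) → K₀(RH)` is bijective for all rings `R` in `C` and all subgroups `H` of `G`.

The main result is about arbitrary actions of a group `G` on trees without inversions. It reduces the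
question whether `G` is in `𝒦(C)` to the stabilisers of the vertices and to subgroups `⟨Q, g⟩` which
are generated by the pointwise stabiliser `Q` of a segment of a ray, which can be chosen as long as one
likes, and one element `g` which translates this segment along the ray by `d` steps. These subgroups
need not be considered if `Q` is trivial or if the rings `RQ` are regular coherent. There are no
conditions on the stabilisers of the edges besides that they are in `𝒦(C)`. The class is also closed
under embeddings and directed colimits with arbitrary structure maps.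

The group `K₀` is described by idempotent matrices: the elements of `K₀(R)` are the differences
`[p] - [q]` for idempotent matrices `p` and `q` over `R`.
-/

set_option autoImplicit false

namespace Pool.Agent.Results.MP_1a2884_al.TreesAndRegularRings

open Matrix

/-- An idempotent matrix over `R`. It stands for the finitely generated projective left module which
is its row space; all finitely generated projective modules are of this form. -/
structure IdemMatrix (R : Type) [Ring R] where
  /-- the size -/
  size : ℕ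
  /-- the matrix -/
  mat : Matrix (Fin size) (Fin size) R
  idem : mat * mat = mat

section idem

variable {R S : Type} [Ring R] [Ring S]

/-- The projective modules of the idempotent matrices `p` and `q` are isomorphic. -/
def IdemMatrix.Iso (p q : IdemMatrix R) : Prop :=
  ∃ (u : Matrix (Fin p.size) (Fin q.size) R) (w : Matrix (Fin q.size) (Fin p.size) R),
    u * w = p.mat ∧ w * u = q.mat

/-- The direct sum: the block diagonal matrix with the blocks `p` and `q`. -/
def IdemMatrix.sum (p q : IdemMatrix R) : IdemMatrix R where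
  size := p.size + q.size
  mat := (fromBlocks p.mat 0 0 q.mat).submatrix finSumFinEquiv.symm finSumFinEquiv.symm
  idem := by
    rw [Matrix.submatrix_mul_equiv, Pool.Agent.H1.KK.blocks_idem p.idem q.idem]

/-- The image under a ring homomorphism, applied to the entries. -/
def IdemMatrix.map (φ : R →+* S) (p : IdemMatrix R) : IdemMatrix S where
  size := p.size
  mat := p.mat.map φ
  idem := by rw [← Matrix.map_mul, p.idem]

/-- The equation `[p] - [q] = [p'] - [q']` in the Grothendieck group `K₀(R)` of the isomorphism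
classes of finitely generated projective modules. -/
def K0Eq (p q p' q' : IdemMatrix R) : Prop :=
  ∃ r : IdemMatrix R, ((p.sum q').sum r).Iso ((p'.sum q).sum r)

/-- The map `K₀(R) → K₀(S)` induced by the ring homomorphism is surjective and injective. -/
def K0Bijective (φ : R →+* S) : Prop :=
  (∀ P Q : IdemMatrix S, ∃ p q : IdemMatrix R, K0Eq (p.map φ) (q.map φ) P Q) ∧
  ∀ p q p' q' : IdemMatrix R, K0Eq (p.map φ) (q.map φ) (p'.map φ) (q'.map φ) → K0Eq p q p' q'

end idem

/-- The canonical homomorphism `R → RG`. -/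
noncomputable def coefficients (R : Type) [Ring R] (G : Type) [Group G] :
    R →+* MonoidAlgebra R G := MonoidAlgebra.singleOneRingHom

/-- The module `M` has a resolution of length at most `n` by finitely generated projective modules,
all of which except perhaps the last one are free. -/
def HasResolution (R : Type) [Ring R] : ∀ (_ : ℕ) (M : Type) [AddCommGroup M] [Module R M], Prop
  | 0, M, _, _ => Module.Finite R M ∧ Module.Projective R M
  | n + 1, M, _, _ => ∃ (ι : Type) (_ : Fintype ι) (f : (ι → R) →ₗ[R] M),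
      Function.Surjective f ∧ HasResolution R n (LinearMap.ker f)

/-- The ring `R` is (left) regular: left noetherian, and every finitely generated left module has a
finite resolution by finitely generated projective modules. -/
def Regular (R : Type) [Ring R] : Prop :=
  IsNoetherianRing R ∧
  ∀ (M : Type) [AddCommGroup M] [Module R M] [Module.Finite R M], ∃ n, HasResolution R n M

/-- The ring `R` is (left) regular coherent: every finitely presented left module has a finite
resolution by finitely generated projective modules. -/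
def RegularCoherent (R : Type) [Ring R] : Prop :=
  ∀ (M : Type) [AddCommGroup M] [Module R M] [Module.FinitePresentation R M],
    ∃ n, HasResolution R n M

/-- A class of regular rings which contains with `R` the ring of Laurent polynomials `R[t, t⁻¹]`. -/
structure LaurentClosed (C : ∀ (R : Type) [Ring R], Prop) : Prop where
  regular : ∀ (R : Type) [Ring R], C R → Regular R
  laurent : ∀ (R : Type) [Ring R], C R → C (MonoidAlgebra R (Multiplicative ℤ))

/-- The class `𝒦(C)` of the groups `G` such that `K₀(R) → K₀(RH)` is bijective for all rings `R` in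
`C` and all subgroups `H` of `G`. -/
def ClassK (C : ∀ (R : Type) [Ring R], Prop) (G : Type) [Group G] : Prop :=
  ∀ (R : Type) [Ring R], C R → ∀ H : Subgroup G, K0Bijective (coefficients R H)

/-- The group `G` is the directed colimit of the groups `H i`, `i` in `I`, along the homomorphisms
`f i j`, which need not be injective; the maps to the colimit are the homomorphisms `φ i`. -/
structure DirectedColimit {I : Type} [Preorder I] (H : I → Type) [∀ i, Group (H i)]
    (f : ∀ i j, i ≤ j → H i →* H j) {G : Type} [Group G] (φ : ∀ i, H i →* G) : Prop where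
  nonempty : Nonempty I
  directed : ∀ i j : I, ∃ l, i ≤ l ∧ j ≤ l
  trans : ∀ (i j l : I) (h : i ≤ j) (h' : j ≤ l) (x : H i),
    f j l h' (f i j h x) = f i l (h.trans h') x
  comp : ∀ (i j : I) (h : i ≤ j) (x : H i), φ j (f i j h x) = φ i x
  surj : ∀ g : G, ∃ (i : I) (x : H i), φ i x = g
  inj : ∀ (i : I) (x : H i), φ i x = 1 → ∃ (j : I) (h : i ≤ j), f i j h x = 1

/-- A ray: an infinite path without backtracking. -/
def IsRay {V : Type} (T : SimpleGraph V) (p : ℕ → V) : Prop :=
  (∀ i, T.Adj (p i) (p (i + 1))) ∧ ∀ i, p (i + 2) ≠ p i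

/-- The pointwise stabiliser of the initial segment `p 0, …, p n` of a ray. -/
def segmentStabilizer (G : Type) [Group G] {V : Type} [MulAction G V] (p : ℕ → V) (n : ℕ) :
    Subgroup G :=
  fixingSubgroup G (p '' Set.Iic n)

open Pool.Agent.H1.MV Pool.Agent.H1.MK Pool.Agent.H1.KK

section proofs

variable {R S : Type} [Ring R] [Ring S]

theorem iso_iff (p q : IdemMatrix R) : p.Iso q ↔ Nonempty (Mo p.mat ≃ₗ[R] Mo q.mat) := by
  constructor
  · rintro ⟨u, w, h1, h2⟩
    exact ⟨moUw u w h1 h2 p.idem q.idem⟩
  · rintro ⟨f⟩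
    exact mo_uw p.idem q.idem f

/-- reindexing -/
def moRe {m n : Type} [Fintype m] [DecidableEq m] [Fintype n] [DecidableEq n] (e : n ≃ m)
    {M : Matrix m m R} (hM : M * M = M) : Mo (M.submatrix e e) ≃ₗ[R] Mo M :=
  moUw (M.submatrix e id) (M.submatrix id e)
    (by
      have := Matrix.submatrix_mul_equiv M M e (Equiv.refl m) e
      rw [hM] at this
      exact this)
    (by
      rw [Matrix.submatrix_mul_equiv, hM, Matrix.submatrix_id_id])
    (by rw [Matrix.submatrix_mul_equiv, hM]) hM

/-- the module of the direct sum -/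
def moSum (p q : IdemMatrix R) : Mo (p.sum q).mat ≃ₗ[R] (Mo p.mat × Mo q.mat) :=
  (moRe finSumFinEquiv.symm (blocks_idem p.idem q.idem)).trans (moBlocks p.mat q.mat)

/-- the module of a sum of three matrices -/
def moSum3 (p q r : IdemMatrix R) :
    Mo ((p.sum q).sum r).mat ≃ₗ[R] ((Mo p.mat × Mo q.mat) × Mo r.mat) :=
  (moSum (p.sum q) r).trans (LinearEquiv.prodCongr (moSum p q) (LinearEquiv.refl R _))

theorem k0Eq_iff (p q p' q' : IdemMatrix R) : K0Eq p q p' q' ↔ ∃ r : IdemMatrix R,
    Nonempty (((Mo p.mat × Mo q'.mat) × Mo r.mat) ≃ₗ[R] ((Mo p'.mat × Mo q.mat) × Mo r.mat)) := by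
  constructor
  · rintro ⟨r, h⟩
    rw [iso_iff] at h
    obtain ⟨f⟩ := h
    exact ⟨r, ⟨((moSum3 p q' r).symm.trans f).trans (moSum3 p' q r)⟩⟩
  · rintro ⟨r, ⟨f⟩⟩
    refine ⟨r, ?_⟩
    rw [iso_iff]
    exact ⟨((moSum3 p q' r).trans f).trans (moSum3 p' q r).symm⟩

/-- the identity matrix -/
def idMat (R : Type) [Ring R] (n : ℕ) : IdemMatrix R := ⟨n, 1, Matrix.one_mul _⟩

/-- an idempotent matrix with arbitrary index set -/
noncomputable def ofIdem {ν : Type} [Fintype ν] [DecidableEq ν] (p : Matrix ν ν R)
    (hp : p * p = p) : IdemMatrix R where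
  size := Fintype.card ν
  mat := p.submatrix (Fintype.equivFin ν).symm (Fintype.equivFin ν).symm
  idem := by rw [Matrix.submatrix_mul_equiv, hp]

theorem sum_map (φ : R →+* S) (p q : IdemMatrix R) :
    (p.sum q).map φ = (p.map φ).sum (q.map φ) := by
  unfold IdemMatrix.sum IdemMatrix.map
  congr 1
  exact congrArg (fun M => M.submatrix finSumFinEquiv.symm finSumFinEquiv.symm)
    (blocks_map φ p.mat q.mat)

theorem Iso.map {p q : IdemMatrix R} (φ : R →+* S) (h : p.Iso q) : (p.map φ).Iso (q.map φ) := by
  obtain ⟨u, w, h1, h2⟩ := h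
  refine ⟨u.map φ, w.map φ, ?_, ?_⟩
  · change u.map φ * w.map φ = p.mat.map φ
    rw [← Matrix.map_mul, h1]
  · change w.map φ * u.map φ = q.mat.map φ
    rw [← Matrix.map_mul, h2]

theorem k0Eq_map (φ : R →+* S) {p q p' q' : IdemMatrix R} (h : K0Eq p q p' q') :
    K0Eq (p.map φ) (q.map φ) (p'.map φ) (q'.map φ) := by
  obtain ⟨r, h⟩ := h
  refine ⟨r.map φ, ?_⟩
  have h1 := Iso.map φ h
  rwa [sum_map, sum_map, sum_map, sum_map] at h1

theorem map_map' {Q : Type} [Ring Q] (φ : R →+* S) (ρ : S →+* Q) (p : IdemMatrix R) :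
    (p.map φ).map ρ = p.map (ρ.comp φ) := rfl

theorem map_id' (p : IdemMatrix R) : p.map (RingHom.id R) = p := by
  unfold IdemMatrix.map
  congr 1

/-- permutations of factors -/
def perm4 (A B C D : Type) [AddCommGroup A] [Module R A] [AddCommGroup B] [Module R B]
    [AddCommGroup C] [Module R C] [AddCommGroup D] [Module R D] :
    ((A × B) × (C × D)) ≃ₗ[R] ((A × D) × (C × B)) where
  toFun x := ((x.1.1, x.2.2), (x.2.1, x.1.2))
  map_add' _ _ := rfl
  map_smul' _ _ := rfl
  invFun x := ((x.1.1, x.2.2), (x.2.1, x.1.2))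
  left_inv _ := rfl
  right_inv _ := rfl

/-- the surjectivity -/
theorem surj_of_allSI {φ : R →+* S} (h : AllSI φ) (P Q : IdemMatrix S) :
    ∃ p q : IdemMatrix R, K0Eq (p.map φ) (q.map φ) P Q := by
  have i1 := mo_finite P.mat
  have i2 := mo_projective P.idem
  have i3 := mo_finite Q.mat
  have i4 := mo_projective Q.idem
  obtain ⟨ν, _, _, p₁, hp₁, a, b, ⟨f⟩⟩ := h (Mo P.mat)
  obtain ⟨μ, _, _, q₁, hq₁, c, d, ⟨g⟩⟩ := h (Mo Q.mat)
  -- `f : P × S^a ≃ p₁ × S^b` and `g : Q × S^c ≃ q₁ × S^d`
  let p : IdemMatrix R := ((ofIdem p₁ hp₁).sum (idMat R b)).sum (idMat R c)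
  let q : IdemMatrix R := ((ofIdem q₁ hq₁).sum (idMat R d)).sum (idMat R a)
  have one : ∀ n : ℕ, Nonempty (Mo ((idMat R n).map φ).mat ≃ₗ[S] (Fin n → S)) := by
    intro n
    have h1 : ((idMat R n).map φ).mat = 1 := Matrix.map_one _ (map_zero _) (map_one _)
    rw [h1]
    exact ⟨moOne S (Fin n)⟩
  have sm : ∀ (ν : Type) [Fintype ν] [DecidableEq ν] (p₁ : Matrix ν ν R) (hp₁ : p₁ * p₁ = p₁)
      (b c : ℕ), Nonempty (Mo ((((ofIdem p₁ hp₁).sum (idMat R b)).sum (idMat R c)).map φ).mat ≃ₗ[S]
        ((Mo (p₁.map φ) × (Fin b → S)) × (Fin c → S))) := by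
    intro ν _ _ p₁ hp₁ b c
    rw [sum_map, sum_map]
    obtain ⟨e1⟩ := one b
    obtain ⟨e2⟩ := one c
    have e3 : Mo ((ofIdem p₁ hp₁).map φ).mat ≃ₗ[S] Mo (p₁.map φ) := by
      have h1 : ((ofIdem p₁ hp₁).map φ).mat =
          (p₁.map φ).submatrix (Fintype.equivFin ν).symm (Fintype.equivFin ν).symm := rfl
      rw [h1]
      exact moRe _ (map_idem φ hp₁)
    exact ⟨(moSum3 _ _ _).trans (LinearEquiv.prodCongr (LinearEquiv.prodCongr e3 e1) e2)⟩
  obtain ⟨ep⟩ := sm ν p₁ hp₁ b c
  obtain ⟨eq⟩ := sm μ q₁ hq₁ d a
  refine ⟨p, q, (k0Eq_iff _ _ _ _).2 ⟨idMat S 0, ⟨?_⟩⟩⟩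
  -- `(p × Q) ≃ (P × q)`
  have e1 : (Mo (p.map φ).mat × Mo Q.mat) ≃ₗ[S] ((Mo P.mat × (Fin a → S)) ×
      (Mo Q.mat × (Fin c → S))) :=
    (LinearEquiv.prodCongr (ep.trans (LinearEquiv.prodCongr f.symm
      (LinearEquiv.refl S (Fin c → S)))) (LinearEquiv.refl S (Mo Q.mat))).trans
      ((LinearEquiv.prodAssoc S _ _ _).trans (LinearEquiv.prodCongr (LinearEquiv.refl S _)
        (LinearEquiv.prodComm S _ _)))
  have e2 : ((Mo P.mat × (Fin a → S)) × (Mo Q.mat × (Fin c → S))) ≃ₗ[S]
      (Mo P.mat × Mo (q.map φ).mat) :=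
    (LinearEquiv.prodCongr (LinearEquiv.refl S _) g).trans
      ((LinearEquiv.prodAssoc S _ _ _).trans (LinearEquiv.prodCongr (LinearEquiv.refl S (Mo P.mat))
        ((LinearEquiv.prodComm S _ _).trans eq.symm)))
  exact LinearEquiv.prodCongr (e1.trans e2) (LinearEquiv.refl S _)

theorem k0Bijective_of_allSI {φ : R →+* S} {ρ : S →+* R} (hρ : ρ.comp φ = RingHom.id R)
    (h : AllSI φ) : K0Bijective φ := by
  refine ⟨surj_of_allSI h, ?_⟩
  intro p q p' q' h1
  have h2 := k0Eq_map ρ h1
  rwa [map_map', map_map', map_map', map_map', hρ, map_id', map_id', map_id', map_id'] at h2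

theorem allSI_of_k0Bijective {φ : R →+* S} (h : K0Bijective φ) : AllSI φ := by
  apply AllSI.of_mo
  intro n P hP
  obtain ⟨p, q, h1⟩ := h.1 ⟨n, P, hP⟩ (idMat S 0)
  rw [k0Eq_iff] at h1
  obtain ⟨r, ⟨f⟩⟩ := h1
  have g0 : ∀ p : IdemMatrix R, SI φ (Mo (p.map φ).mat) := fun p =>
    ⟨Fin p.size, inferInstance, inferInstance, p.mat, p.idem, SE.refl _⟩
  have g1 : SI φ (Mo (idMat S 0).mat) := by
    have h2 : (idMat S 0).mat = ((1 : Matrix (Fin 0) (Fin 0) R).map φ) := by
      ext i
      exact i.elim0
    exact ⟨Fin 0, inferInstance, inferInstance, 1, Matrix.one_mul _, by rw [h2]; exact SE.refl _⟩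
  -- add the complement of `r`
  have e1 : (((Mo (p.map φ).mat × Mo (idMat S 0).mat) × Mo r.mat) × Mo (1 - r.mat)) ≃ₗ[S]
      (((Mo P × Mo (q.map φ).mat) × Mo r.mat) × Mo (1 - r.mat)) :=
    LinearEquiv.prodCongr f (LinearEquiv.refl S _)
  have e2 : ∀ (A : Type) [AddCommGroup A] [Module S A],
      Nonempty (((A × Mo r.mat) × Mo (1 - r.mat)) ≃ₗ[S] (A × (Fin r.size → S))) :=
    fun A _ _ => ⟨(LinearEquiv.prodAssoc S _ _ _).trans
      (LinearEquiv.prodCongr (LinearEquiv.refl S A) (dec r.mat r.idem).symm)⟩
  obtain ⟨e3⟩ := e2 (Mo (p.map φ).mat × Mo (idMat S 0).mat)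
  obtain ⟨e4⟩ := e2 (Mo P × Mo (q.map φ).mat)
  have s1 : SI φ ((Mo P × Mo (q.map φ).mat) × (Fin r.size → S)) :=
    (((g0 p).prod g1).prod SI.of_free).iso ((e3.symm.trans e1).trans e4)
  have s2 : SI φ ((Mo (q.map φ).mat × (Fin r.size → S)) × Mo P) :=
    s1.iso ((LinearEquiv.prodAssoc S _ _ _).trans (LinearEquiv.prodComm S _ _))
  exact SI.of_prod ((g0 q).prod SI.of_free) s2

theorem k0Bijective_iff (k : Type) [Ring k] (H : Type) [Group H] :
    K0Bijective (coefficients k H) ↔ AllSI (io k H) := by
  constructor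
  · exact allSI_of_k0Bijective
  · refine k0Bijective_of_allSI (ρ := aug k H) ?_
    exact RingHom.ext fun c => aug_io c

end proofs

theorem hasResolution_iff {R : Type} [Ring R] {n : ℕ} : ∀ {M : Type} [AddCommGroup M] [Module R M],
    HasResolution R n M ↔ FPD R n M := by
  induction n with
  | zero =>
    intro M _ _
    exact Iff.rfl
  | succ n ih =>
    intro M _ _
    constructor
    · rintro ⟨ι, i, f, hf, hk⟩
      exact ⟨ι, i, f, hf, ih.1 hk⟩
    · rintro ⟨ι, i, f, hf, hk⟩
      exact ⟨ι, i, f, hf, ih.2 hk⟩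

theorem regularCoherent_nice {R : Type} [Ring R] (h : RegularCoherent R) : Nice R := by
  apply Pool.Agent.H1.MV.RegularCoherent.nice
  intro M _ _ _
  obtain ⟨d, hd⟩ := h M
  exact ⟨d, hasResolution_iff.1 hd⟩

theorem regular_iff (k : Type) [Ring k] : Regular k ↔ Reg k := by
  constructor
  · rintro ⟨h1, h2⟩
    refine ⟨h1, nice_of_fpd ?_⟩
    intro M _ _ _
    obtain ⟨n, hn⟩ := h2 M
    exact ⟨n, hasResolution_iff.1 hn⟩
  · intro h
    have := h.noeth
    refine ⟨h.noeth, ?_⟩
    intro M _ _ _
    obtain ⟨n, hn⟩ := fpd_of_nice h.nice M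
    exact ⟨n, hasResolution_iff.2 hn⟩

theorem LaurentClosed.rcls {C : ∀ (R : Type) [Ring R], Prop} (h : LaurentClosed C) : RCls C :=
  ⟨fun k _ hk => (regular_iff k).1 (h.regular k hk), h.laurent⟩

theorem classK_iff (C : ∀ (R : Type) [Ring R], Prop) (G : Type) [Group G] :
    ClassK C G ↔ KR C G :=
  ⟨fun h k _ hk H => (k0Bijective_iff k H).1 (h k hk H),
    fun h k _ hk H => (k0Bijective_iff k H).2 (h k hk H)⟩

theorem colim_iff {I : Type} [Preorder I] {H : I → Type} [∀ i, Group (H i)]
    {f : ∀ i j, i ≤ j → H i →* H j} {G : Type} [Group G] {φ : ∀ i, H i →* G}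
    (h : DirectedColimit H f φ) : DC H f φ :=
  ⟨h.nonempty, h.directed, h.trans, h.comp, h.surj, h.inj⟩

theorem segmentStabilizer_eq (G : Type) [Group G] {V : Type} [MulAction G V] (p : ℕ → V) (n : ℕ) :
    segmentStabilizer G p n = Fx G n p := by
  ext g
  unfold segmentStabilizer
  rw [mem_fixingSubgroup_iff]
  constructor
  · intro h i hi
    exact h _ ⟨i, hi, rfl⟩
  · rintro h _ ⟨i, hi, rfl⟩
    exact h i hi

/-- **The projective class group of group rings of groups acting on trees.** The class of all regular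
rings is closed under Laurent polynomial rings. Let `C` be any class of regular rings with this
property, and let `𝒦(C)` be the class of the groups `G` such that the canonical map
`K₀(R) → K₀(RH)` is bijective for all rings `R` in `C` and all subgroups `H` of `G`.
(1) Free abelian groups of finite rank are in `𝒦(C)`.
(2) Groups which embed into a group of the class are in `𝒦(C)`.
(3) Directed colimits of groups of the class, along arbitrary homomorphisms, are in `𝒦(C)`.
(4) Let `G` act on a tree `T` by graph automorphisms and without inversions. Then `G` is in `𝒦(C)` if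
and only if the stabilisers of the vertices are in `𝒦(C)` and for each ray `p` and each `d > 0` there
is `n` such that the pointwise stabiliser `Q` of `p 0, …, p n` is trivial, or the rings `RQ` are
regular coherent for all `R` in `C`, or for all elements `g` of `G` with `g (p (i + d)) = p i` for
`i ≤ n` the subgroup generated by `Q` and `g` is in `𝒦(C)`. -/
theorem result :
    LaurentClosed (fun R _ => Regular R) ∧
    ∀ C : ∀ (R : Type) [Ring R], Prop, LaurentClosed C →
      (∀ n : ℕ, ClassK C (Multiplicative (Fin n → ℤ))) ∧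
      (∀ (G H : Type) [Group G] [Group H] (f : G →* H), Function.Injective f →
        ClassK C H → ClassK C G) ∧
      (∀ (I : Type) [Preorder I] (H : I → Type) [∀ i, Group (H i)]
        (f : ∀ i j, i ≤ j → H i →* H j) (G : Type) [Group G] (φ : ∀ i, H i →* G),
        DirectedColimit H f φ → (∀ i, ClassK C (H i)) → ClassK C G) ∧
      (∀ (G V : Type) [Group G] [MulAction G V] (T : SimpleGraph V), T.IsTree →
        (∀ (g : G) (v w : V), T.Adj v w → T.Adj (g • v) (g • w)) →
        (∀ (g : G) (v w : V), T.Adj v w → ¬ (g • v = w ∧ g • w = v)) →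
        (ClassK C G ↔
          (∀ v : V, ClassK C (MulAction.stabilizer G v)) ∧
          ∀ p : ℕ → V, IsRay T p → ∀ d : ℕ, 0 < d → ∃ n,
            segmentStabilizer G p n = ⊥ ∨
            (∀ (R : Type) [Ring R], C R →
              RegularCoherent (MonoidAlgebra R (segmentStabilizer G p n))) ∨
            ∀ g : G, (∀ i ≤ n, g • p (i + d) = p i) →
              ClassK C (Subgroup.closure ((segmentStabilizer G p n : Set G) ∪ {g})))) := by
  refine ⟨⟨fun _ _ h => h, fun R _ h => ?_⟩, ?_⟩
  · exact (regular_iff _).2 ((regular_iff R).1 h).lau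
  intro C hC
  have hC' := hC.rcls
  have sub : ∀ (G : Type) [Group G], ClassK C G → ∀ H : Subgroup G, ClassK C H := by
    intro G _ h H
    rw [classK_iff] at h ⊢
    exact h.of_inj H.subtype H.subtype_injective
  refine ⟨?_, ?_, ?_, ?_⟩
  · intro n
    rw [classK_iff]
    exact kr_zp hC' n
  · intro G H _ _ f hf h
    rw [classK_iff] at h ⊢
    exact h.of_inj f hf
  · intro I _ H _ f G _ φ h hA
    exact (classK_iff C G).2 (KR.colim (colim_iff h) fun i => (classK_iff C _).1 (hA i))
  · intro G V _ _ T hT hact hinv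
    constructor
    · intro h
      refine ⟨fun v => sub G h _, ?_⟩
      intro p _ d _
      exact ⟨0, Or.inr (Or.inr fun g _ => sub G h _)⟩
    · rintro ⟨hV, hm⟩
      rw [classK_iff]
      refine KR.tree hC' hT hact hinv (fun v => (classK_iff C _).1 (hV v)) ?_
      intro p h1 h2 d hd
      obtain ⟨n, hn⟩ := hm p ⟨h1, h2⟩ d hd
      refine ⟨n, ?_⟩
      rw [segmentStabilizer_eq] at hn
      rcases hn with hn | hn | hn
      · exact Or.inl hn
      · exact Or.inr (Or.inl fun k _ hk => regularCoherent_nice (hn k hk))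
      · exact Or.inr (Or.inr fun g hg => (classK_iff C _).1 (hn g hg))

end Pool.Agent.Results.MP_1a2884_al.TreesAndRegularRings
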